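import Pool.Agent.U291.LG.Main

/-!
Asymptotics.
-/

namespace LG291
open RC14 RD516 Finset Filter Topology

noncomputable section

lemma exp7 {n : ℕ} (hn : 100000 ≤ n) {ε : ℝ} (hε0 : 0 < ε) (hε1 : ε ≤ 1) {L : ℕ} {X : ℝ}
    (hL : X / 2 ≤ L) (hX : 28 / ε * Real.log n ≤ X) :
    (1 - ε / 2) ^ L * (n : ℝ) ^ 2 ≤ 1 / (16 * (n : ℝ) ^ 2) ∧
      (1 - ε / 2) ^ L * ((n : ℝ) ^ 3) ^ 2 < 1 := by
  have hn' : (100000 : ℝ) ≤ n := by exact_mod_cast hn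
  have hn0 : (0 : ℝ) < n := by linarith
  have hexpn : Real.exp (Real.log n) = n := Real.exp_log hn0
  have h1 := pow_le_exp hε1 L
  have h2 : 7 * Real.log n ≤ ε / 2 * L := by
    have h3 : ε / 4 * (28 / ε * Real.log n) ≤ ε / 4 * X :=
      mul_le_mul_of_nonneg_left hX (by positivity)
    have h4 : ε / 4 * (28 / ε * Real.log n) = 7 * Real.log n := by
      field_simp
      ring
    have h5 : ε / 2 * (X / 2) ≤ ε / 2 * L := mul_le_mul_of_nonneg_left hL (by positivity)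
    linarith
  have h3 : (1 - ε / 2) ^ L ≤ 1 / (n : ℝ) ^ 7 := by
    refine h1.trans ?_
    calc Real.exp (-(ε / 2 * L)) ≤ Real.exp (-(7 * Real.log n)) :=
          Real.exp_le_exp.2 (by linarith)
      _ = 1 / (n : ℝ) ^ 7 := by
          rw [Real.exp_neg, one_div]
          congr 1
          have : (7 : ℝ) * Real.log n = ((7 : ℕ) : ℝ) * Real.log n := by norm_num
          rw [this, Real.exp_nat_mul, hexpn]
  constructor
  · calc (1 - ε / 2) ^ L * (n : ℝ) ^ 2 ≤ 1 / (n : ℝ) ^ 7 * (n : ℝ) ^ 2 := by gcongr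
      _ ≤ 1 / (16 * (n : ℝ) ^ 2) := by
          rw [div_mul_eq_mul_div, one_mul, div_le_div_iff₀ (by positivity) (by positivity)]
          have h4 : (16 : ℝ) ≤ (n : ℝ) ^ 3 := by nlinarith [one_le_pow₀ (a := (n : ℝ)) (by linarith) (n := 2)]
          calc (n : ℝ) ^ 2 * (16 * (n : ℝ) ^ 2) = 16 * (n : ℝ) ^ 4 := by ring
            _ ≤ (n : ℝ) ^ 3 * (n : ℝ) ^ 4 := by gcongr
            _ = 1 * (n : ℝ) ^ 7 := by ring
  · calc (1 - ε / 2) ^ L * ((n : ℝ) ^ 3) ^ 2 ≤ 1 / (n : ℝ) ^ 7 * ((n : ℝ) ^ 3) ^ 2 := by gcongr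
      _ = 1 / (n : ℝ) := by field_simp
      _ < 1 := by
          rw [div_lt_one hn0]
          linarith

lemma expanding_mono {G : Type*} [Group G] [Fintype G] {k : ℕ} {ε ε' : ℝ} (h : ε ≤ ε')
    {x : Fin k → G} (hx : Expanding ε' x) : Expanding ε x := by
  refine ⟨hx.1, fun f hf => (hx.2 f hf).trans ?_⟩
  have h2 : 0 ≤ ∑ g, f g ^ 2 := sum_nonneg fun g _ => sq_nonneg _
  gcongr

/-- the asymptotic statement for one more generator -/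
theorem ev_one (δ : ℝ) (hδ : 0 < δ) (k : ℕ) (hk : 1 ≤ k) (ε : ℝ) (hε : 0 < ε) (hε1 : ε ≤ 1) :
    ∀ᶠ n : ℕ in atTop, ∀ x : Fin k → Alt n,
      (∀ f ∈ lowLevel n ⌊(n : ℝ) ^ (1 - min (δ / 16) (1 / 4))⌋₊, ∑ g, f g = 0 →
        ∑ g, f g * walk x f g ≤ (1 - ε) * ∑ g, f g ^ 2) →
      (∀ s ≤ ⌊(n : ℝ) ^ (1 - min (δ / 16) (1 / 4))⌋₊, TGap x ε s) →
      (4 * (n : ℝ) ^ (-δ) ≤ (n : ℝ) ^ (-(δ / 2))) ∧
      ∀ t : Alt n, t ≠ 1 → 8 * #(t : Equiv.Perm (Fin n)).support ≤ n →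
        Expanding ((n : ℝ) ^ (-(δ / 2))) (Fin.cons t x : Fin (k + 1) → Alt n) := by
  set δ₁ : ℝ := min (δ / 16) (1 / 4) with hδ1
  have hd0 : 0 < δ₁ := lt_min (by linarith) (by norm_num)
  have hd1 : δ₁ ≤ 1 / 4 := min_le_right _ _
  have hd2 : 16 * δ₁ ≤ δ := by
    have := min_le_left (δ / 16) (1 / 4 : ℝ)
    linarith
  have hk' : (0 : ℝ) < k := by exact_mod_cast hk
  set ε₁ : ℝ := k / (k + 1) * ε with hε1'
  have he0 : 0 < ε₁ := by positivity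
  have hfrac : (k : ℝ) / (k + 1) ≤ 1 := by
    rw [div_le_one (by positivity)]
    linarith
  have he1 : ε₁ ≤ 1 := by
    rw [hε1']
    nlinarith
  filter_upwards [eventually_ge_atTop 100000, ev_const (1 - δ₁) 3 (by linarith),
    ev_le (1 - δ₁) 1 2 (by linarith), ev_const δ₁ 2 hd0, ev_log 0 δ₁ 1 hd0,
    ev_log 0 δ₁ (28 / ε₁) hd0, ev_const δ₁ (3 / 2 * (k + 1) * 810000) hd0,
    ev_const (δ / 2) (1 / ε₁) (by linarith), ev_const (δ / 2) 4 (by linarith)]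
    with n h1 h2 h3 h4 h5 h6 h7 h8 h9 x hlow hgap
  have hn : (100000 : ℝ) ≤ n := by exact_mod_cast h1
  have hn0 : (0 : ℝ) < n := by linarith
  rw [Real.rpow_zero, mul_one] at h5 h6
  rw [Real.rpow_one] at h3
  set Y : ℝ := (n : ℝ) ^ (1 - δ₁) with hY
  set X : ℝ := (n : ℝ) ^ δ₁ with hXdef
  have hXY : X * Y = n := by
    rw [hXdef, hY, ← Real.rpow_add hn0]
    have : δ₁ + (1 - δ₁) = 1 := by ring
    rw [this, Real.rpow_one]
  have hY0 : 0 ≤ Y := by positivity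
  have hX0 : 0 ≤ X := by positivity
  have hrle : (⌊Y⌋₊ : ℝ) ≤ Y := Nat.floor_le hY0
  have hLle : (⌊X⌋₊ : ℝ) ≤ X := Nat.floor_le hX0
  have hneg : (n : ℝ) ^ (-(δ / 2)) = 1 / (n : ℝ) ^ (δ / 2) := by
    rw [Real.rpow_neg hn0.le, one_div]
  have hpos2 : 0 < (n : ℝ) ^ (δ / 2) := by positivity
  have hX8 : X ^ 8 ≤ (n : ℝ) ^ (δ / 2) := by
    rw [hXdef, ← Real.rpow_natCast, ← Real.rpow_mul hn0.le]
    apply Real.rpow_le_rpow_of_exponent_le (by linarith)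
    push_cast
    linarith
  obtain ⟨hL, hL3⟩ := exp7 (n := n) h1 he0 he1 (L := ⌊X⌋₊) (X := X)
    (by have := Nat.lt_floor_add_one X; linarith) h6
  refine ⟨?_, ?_⟩
  · rw [hneg]
    have h10 : (n : ℝ) ^ (-δ) = 1 / (n : ℝ) ^ (δ / 2) * (1 / (n : ℝ) ^ (δ / 2)) := by
      rw [Real.rpow_neg hn0.le]
      have : (n : ℝ) ^ δ = (n : ℝ) ^ (δ / 2) * (n : ℝ) ^ (δ / 2) := by
        rw [← Real.rpow_add hn0]
        congr 1
        ring
      rw [this]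
      field_simp
    rw [h10]
    have h11 : 4 * (1 / (n : ℝ) ^ (δ / 2)) ≤ 1 := by
      rw [mul_one_div, div_le_one hpos2]
      exact h9
    calc 4 * (1 / (n : ℝ) ^ (δ / 2) * (1 / (n : ℝ) ^ (δ / 2)))
        = (4 * (1 / (n : ℝ) ^ (δ / 2))) * (1 / (n : ℝ) ^ (δ / 2)) := by ring
      _ ≤ 1 * (1 / (n : ℝ) ^ (δ / 2)) := by gcongr
      _ = 1 / (n : ℝ) ^ (δ / 2) := one_mul _
  · refine one (x := x) hk hε1 (r := ⌊Y⌋₊) (L := ⌊X⌋₊) (Nat.le_floor (by exact_mod_cast h2)) ?_ h1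
      hlow hgap hL hL3 (X := X) (by linarith) (by linarith) hLle ?_ (by positivity) ?_ ?_
    · have h10 : (⌊Y⌋₊ : ℝ) + 3 ≤ n := by linarith
      exact_mod_cast h10
    · have := Nat.lt_floor_add_one Y
      calc (n : ℝ) = X * Y := hXY.symm
        _ ≤ X * (⌊Y⌋₊ + 1) := by gcongr
    · rw [hneg, div_le_iff₀ hpos2]
      rw [div_le_iff₀ he0] at h8
      linarith
    · rw [hneg]
      rw [div_mul_eq_mul_div, one_mul, div_le_one hpos2]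
      calc 3 / 2 * ((k : ℝ) + 1) * 810000 * X ^ 7 ≤ X * X ^ 7 := by gcongr
        _ = X ^ 8 := by ring
        _ ≤ _ := hX8

end

end LG291
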