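import Mathlib

/-!
Averages over the even permutations supported in a set, and the relation between two of them.
-/

namespace LG291
open Finset Equiv

noncomputable section

variable {n : ℕ}

/-- the alternating group -/
abbrev AG (n : ℕ) := alternatingGroup (Fin n)

/-- the even permutations supported in `A` -/
def H (A : Finset (Fin n)) : Finset (AG n) :=
  univ.filter fun h => ∀ a, a ∉ A → (h : Perm (Fin n)) a = a

lemma mem_H {A : Finset (Fin n)} {h : AG n} : h ∈ H A ↔ ∀ a, a ∉ A → (h : Perm (Fin n)) a = a := by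
  simp [H]

lemma one_mem_H (A : Finset (Fin n)) : (1 : AG n) ∈ H A := by simp [mem_H]

lemma mul_mem_H {A : Finset (Fin n)} {g h : AG n} (hg : g ∈ H A) (hh : h ∈ H A) : g * h ∈ H A := by
  rw [mem_H] at *
  intro a ha
  rw [Subgroup.coe_mul, Perm.mul_apply, hh a ha, hg a ha]

lemma inv_mem_H {A : Finset (Fin n)} {g : AG n} (hg : g ∈ H A) : g⁻¹ ∈ H A := by
  rw [mem_H] at *
  intro a ha
  rw [Subgroup.coe_inv, Perm.inv_eq_iff_eq, hg a ha]

lemma H_mono {A B : Finset (Fin n)} (h : A ⊆ B) : H A ⊆ H B := by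
  intro g hg
  rw [mem_H] at *
  exact fun a ha => hg a fun h' => ha (h h')

lemma apply_mem {A : Finset (Fin n)} {g : AG n} (hg : g ∈ H A) {z : Fin n} (hz : z ∈ A) :
    (g : Perm (Fin n)) z ∈ A := by
  by_contra hcon
  rw [mem_H] at hg
  have h1 := hg _ hcon
  have h2 := (g : Perm (Fin n)).injective h1
  exact hcon (h2.symm ▸ hz)

lemma card_H_pos (A : Finset (Fin n)) : 0 < #(H A) := card_pos.2 ⟨1, one_mem_H A⟩

/-- `H A` is transitive on `A` if `A` has at least three points -/
lemma exists_move {A : Finset (Fin n)} (hA : 3 ≤ #A) {z z' : Fin n} (hz : z ∈ A) (hz' : z' ∈ A) :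
    ∃ g ∈ H A, (g : Perm (Fin n)) z = z' := by
  by_cases h : z = z'
  · exact ⟨1, one_mem_H A, by simpa using h⟩
  · obtain ⟨w, hw⟩ : ((A.erase z).erase z').Nonempty := by
      rw [← card_pos, card_erase_of_mem (mem_erase.2 ⟨Ne.symm h, hz'⟩), card_erase_of_mem hz]
      omega
    rw [mem_erase, mem_erase] at hw
    obtain ⟨hwz', hwz, hwA⟩ := hw
    have hs : swap z z' * swap z w ∈ alternatingGroup (Fin n) := by
      rw [Perm.mem_alternatingGroup, Perm.sign_mul, Perm.sign_swap h, Perm.sign_swap hwz.symm]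
      rfl
    refine ⟨(⟨swap z z' * swap z w, hs⟩ : AG n)⁻¹, inv_mem_H ?_, ?_⟩
    · rw [mem_H]
      intro a ha
      have h1 : a ≠ z := fun e => ha (e ▸ hz)
      have h2 : a ≠ z' := fun e => ha (e ▸ hz')
      have h3 : a ≠ w := fun e => ha (e ▸ hwA)
      change (swap z z' * swap z w) a = a
      rw [Perm.mul_apply, swap_apply_of_ne_of_ne h1 h3, swap_apply_of_ne_of_ne h1 h2]
    · rw [Subgroup.coe_inv, Perm.inv_eq_iff_eq]
      change z = (swap z z' * swap z w) z'
      rw [Perm.mul_apply, swap_apply_of_ne_of_ne (Ne.symm h) (Ne.symm hwz'), swap_apply_right]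

/-- the orbit sum formula -/
lemma sum_orbit {M : Type*} [AddCommGroup M] [Module ℝ M] {A : Finset (Fin n)} (hA : 3 ≤ #A)
    {z : Fin n} (hz : z ∈ A) (F : Fin n → M) :
    ∑ h ∈ H A, F ((h : Perm (Fin n)) z) = ((#(H A) : ℝ) / #A) • ∑ z' ∈ A, F z' := by
  classical
  have hA0 : (0 : ℝ) < #A := by
    have : 0 < #A := by omega
    exact_mod_cast this
  have h1 : ∑ h ∈ H A, F ((h : Perm (Fin n)) z) =
      ∑ z' ∈ A, ∑ h ∈ (H A).filter (fun h : AG n => (h : Perm (Fin n)) z = z'), F z' := by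
    rw [← sum_fiberwise_of_maps_to (s := H A) (t := A) (g := fun h : AG n => (h : Perm (Fin n)) z)
      (fun h hh => apply_mem hh hz)]
    refine sum_congr rfl fun z' _ => sum_congr rfl fun h hh => ?_
    rw [(mem_filter.1 hh).2]
  have h2 : ∀ z' ∈ A, ∀ z'' ∈ A, #((H A).filter fun h : AG n => (h : Perm (Fin n)) z = z') =
      #((H A).filter fun h : AG n => (h : Perm (Fin n)) z = z'') := by
    intro z' hz' z'' hz''
    obtain ⟨g, hg, hgz⟩ := exists_move hA hz' hz''
    refine card_bij (fun h _ => g * h) ?_ ?_ ?_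
    · intro h hh
      rw [mem_filter] at hh ⊢
      exact ⟨mul_mem_H hg hh.1, by rw [Subgroup.coe_mul, Perm.mul_apply, hh.2, hgz]⟩
    · intro a _ b _ hab
      exact mul_left_cancel hab
    · intro b hb
      rw [mem_filter] at hb
      refine ⟨g⁻¹ * b, ?_, by group⟩
      rw [mem_filter]
      refine ⟨mul_mem_H (inv_mem_H hg) hb.1, ?_⟩
      rw [Subgroup.coe_mul, Perm.mul_apply, hb.2, Subgroup.coe_inv, Perm.inv_eq_iff_eq, hgz]
  set c := #((H A).filter fun h : AG n => (h : Perm (Fin n)) z = z) with hc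
  have h3 : #(H A) = #A * c := by
    have h4 := card_eq_sum_card_fiberwise (s := H A) (t := A)
      (f := fun h : AG n => (h : Perm (Fin n)) z) (fun h hh => apply_mem hh hz)
    rw [h4, sum_const_nat (m := c) fun z' hz' => h2 z' hz' z hz]
  rw [h1, smul_sum]
  refine sum_congr rfl fun z' hz' => ?_
  rw [sum_const, h2 z' hz' z hz, ← hc, h3]
  push_cast
  rw [mul_div_cancel_left₀ _ hA0.ne', Nat.cast_smul_eq_nsmul]

end

end LG291
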