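import Pool.Agent.U291.LG.Reg
import Pool.Agent.U516.RD.Mix

/-!
Comparison of the random walk with the three-cycles: a gap on low levels and short three-cycles give a
gap for the walk on the alternating group.
-/

namespace LG291
open Finset Equiv RD516
open scoped InnerProductSpace

noncomputable section

variable {n K : ℕ}

/-- the operator of the random walk -/
def PW (y : Fin K → AG n) : Module.End ℝ (FV n) :=
  (2 * (K : ℝ))⁻¹ • ∑ i, (reg n (y i) + reg n (y i)⁻¹)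

lemma PW_apply (y : Fin K → AG n) (f : FV n) (g : AG n) :
    PW y f g = RC14.walk y (fun g => f g) g := by
  unfold PW RC14.walk
  rw [LinearMap.smul_apply, LinearMap.sum_apply, PiLp.smul_apply, smul_eq_mul, div_eq_inv_mul]
  congr 1
  rw [WithLp.ofLp_sum, Finset.sum_apply]
  rfl

lemma inner_PW (y : Fin K → AG n) (f : FV n) :
    ⟪f, PW y f⟫_ℝ = ∑ g, f g * RC14.walk y (fun g => f g) g := by
  rw [inner_FV]
  exact sum_congr rfl fun g _ => by rw [PW_apply]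

lemma norm_reg (u : AG n) (f : FV n) : ‖reg n u f‖ = ‖f‖ := by
  have h1 : ‖reg n u f‖ ^ 2 = ‖f‖ ^ 2 := by
    rw [← real_inner_self_eq_norm_sq, ← real_inner_self_eq_norm_sq]
    exact orth_reg u f f
  have h2 := sq_eq_sq₀ (norm_nonneg (reg n u f)) (norm_nonneg f)
  exact h2.1 h1

/-- the energy of the walk -/
lemma energy (hK : 1 ≤ K) (y : Fin K → AG n) (f : FV n) :
    ‖f‖ ^ 2 - ⟪f, PW y f⟫_ℝ = (∑ i, ‖reg n (y i) f - f‖ ^ 2) / (2 * K) := by
  have hK' : (0 : ℝ) < K := by exact_mod_cast hK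
  have h1 : ⟪f, PW y f⟫_ℝ = (2 * (K : ℝ))⁻¹ * ∑ i, 2 * ⟪reg n (y i) f, f⟫_ℝ := by
    unfold PW
    rw [LinearMap.smul_apply, LinearMap.sum_apply, real_inner_smul_right, inner_sum]
    congr 1
    refine sum_congr rfl fun i _ => ?_
    rw [LinearMap.add_apply, inner_add_right, real_inner_comm, ← adj orth_reg (y i) f f]
    ring
  have h2 : ∑ i, ‖reg n (y i) f - f‖ ^ 2 = 2 * K * ‖f‖ ^ 2 - ∑ i, 2 * ⟪reg n (y i) f, f⟫_ℝ := by
    have h3 : ∀ i, ‖reg n (y i) f - f‖ ^ 2 = 2 * ‖f‖ ^ 2 - 2 * ⟪reg n (y i) f, f⟫_ℝ := fun i => by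
      rw [norm_sub]; ring
    rw [sum_congr rfl fun i _ => h3 i, sum_sub_distrib, sum_const, card_univ, Fintype.card_fin,
      nsmul_eq_mul]
    ring
  rw [h1, h2]
  field_simp

/-- a word moves a function by at most its length times the largest move by a letter -/
lemma word_le (y : Fin K → AG n) (f : FV n) {M : ℝ} (hM : ∀ i, ‖reg n (y i) f - f‖ ≤ M)
    (l : List (AG n)) (hl : ∀ z ∈ l, ∃ i, z = y i ∨ z = (y i)⁻¹) :
    ‖reg n l.prod f - f‖ ≤ l.length * M := by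
  induction l with
  | nil => simp
  | cons z l ih =>
    have h1 := ih fun w hw => hl w (List.mem_cons_of_mem _ hw)
    obtain ⟨i, hi⟩ := hl z List.mem_cons_self
    have h2 : ‖reg n z f - f‖ ≤ M := by
      rcases hi with rfl | rfl
      · exact hM i
      · have h3 : reg n (y i)⁻¹ f - f = - reg n (y i)⁻¹ (reg n (y i) f - f) := by
          rw [map_sub, ← Module.End.mul_apply, ← map_mul, inv_mul_cancel, map_one,
            Module.End.one_apply]
          abel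
        rw [h3, norm_neg, norm_reg]
        exact hM i
    have h3 : reg n (z :: l).prod f - f = reg n z (reg n l.prod f - f) + (reg n z f - f) := by
      rw [List.prod_cons, map_mul, Module.End.mul_apply, map_sub]
      abel
    rw [h3, List.length_cons]
    push_cast
    calc ‖reg n z (reg n l.prod f - f) + (reg n z f - f)‖
        ≤ ‖reg n z (reg n l.prod f - f)‖ + ‖reg n z f - f‖ := norm_add_le _ _
      _ ≤ l.length * M + M := by rw [norm_reg]; exact add_le_add h1 h2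
      _ = (l.length + 1) * M := by ring

lemma word_PB (y : Fin K → AG n) (f : FV n) {M : ℝ} (hM0 : 0 ≤ M)
    (hM : ∀ i, ‖reg n (y i) f - f‖ ≤ M) {D : ℕ} {h : AG n} (hh : (h : Perm (Fin n)) ∈ PB y D) :
    ‖reg n h f - f‖ ≤ D * M := by
  obtain ⟨w, h1, h2, h3⟩ := hh
  have h4 : w.prod = h := Subtype.ext h3
  rw [← h4]
  refine (word_le y f hM w h2).trans ?_
  have : (w.length : ℝ) ≤ D := by exact_mod_cast h1
  gcongr

/-- the gap on the functions orthogonal to the low levels -/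
theorem gap_perp (hK : 1 ≤ K) {r : ℕ} (hr : r + 3 ≤ n) {y : Fin K → AG n} {D : ℕ}
    (hD : ∀ h : AG n, (h : Perm (Fin n)).IsThreeCycle → (h : Perm (Fin n)) ∈ PB y D)
    {w : FV n} (hw : w ∈ (LE n r)ᗮ) :
    4 / 3 * ((r + 1) / ((n : ℝ) - 2)) * ‖w‖ ^ 2 ≤
      (D : ℝ) ^ 2 * (2 * K * (‖w‖ ^ 2 - ⟪w, PW y w⟫_ℝ)) := by
  have hK' : (0 : ℝ) < K := by exact_mod_cast hK
  rw [energy hK, mul_div_cancel₀ _ (by positivity)]
  set S : ℝ := ∑ i, ‖reg n (y i) w - w‖ ^ 2 with hS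
  have hS0 : 0 ≤ S := sum_nonneg fun i _ => by positivity
  refine level hr hw (by positivity) fun h hh => ?_
  have h1 : ∀ i, ‖reg n (y i) w - w‖ ≤ Real.sqrt S := by
    intro i
    apply Real.le_sqrt_of_sq_le
    rw [hS]
    exact single_le_sum (f := fun i => ‖reg n (y i) w - w‖ ^ 2) (fun i _ => by positivity)
      (mem_univ i)
  have h2 := word_PB y w (Real.sqrt_nonneg _) h1 (hD h hh)
  calc ‖reg n h w - w‖ ^ 2 ≤ (D * Real.sqrt S) ^ 2 := pow_le_pow_left₀ (norm_nonneg _) h2 2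
    _ = (D : ℝ) ^ 2 * S := by rw [mul_pow, Real.sq_sqrt hS0]

lemma PW_LE {r : ℕ} (y : Fin K → AG n) {f : FV n} (hf : f ∈ LE n r) : PW y f ∈ LE n r := by
  unfold PW
  rw [LinearMap.smul_apply, LinearMap.sum_apply]
  refine Submodule.smul_mem _ _ (Submodule.sum_mem _ fun i _ => ?_)
  rw [LinearMap.add_apply]
  exact Submodule.add_mem _ (reg_LE _ _ hf) (reg_LE _ _ hf)

lemma PW_perp {r : ℕ} (y : Fin K → AG n) {f : FV n} (hf : f ∈ (LE n r)ᗮ) :
    PW y f ∈ (LE n r)ᗮ := by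
  unfold PW
  rw [LinearMap.smul_apply, LinearMap.sum_apply]
  refine Submodule.smul_mem _ _ (Submodule.sum_mem _ fun i _ => ?_)
  rw [LinearMap.add_apply]
  exact Submodule.add_mem _ (reg_perp _ _ hf) (reg_perp _ _ hf)

lemma one_LE (r : ℕ) : (WithLp.toLp 2 (fun _ => 1) : FV n) ∈ LE n r := by
  rw [mem_LE]
  exact Submodule.subset_span ⟨∅, by simp, fun _ _ _ => rfl⟩

/-- **low level gap and short three-cycles give a gap** -/
theorem gap_all (hK : 1 ≤ K) {r : ℕ} (hr : r + 3 ≤ n) {y : Fin K → AG n} {D : ℕ} (hD1 : 1 ≤ D)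
    (hD : ∀ h : AG n, (h : Perm (Fin n)).IsThreeCycle → (h : Perm (Fin n)) ∈ PB y D) {ε : ℝ}
    (hε : ε * (3 / 2 * ((n : ℝ) - 2) * K * (D : ℝ) ^ 2) ≤ r + 1)
    (hlow : ∀ f ∈ RC14.lowLevel n r, ∑ g, f g = 0 →
      ∑ g, f g * RC14.walk y f g ≤ (1 - ε) * ∑ g, f g ^ 2)
    (f : AG n → ℝ) (hf : ∑ g, f g = 0) :
    ∑ g, f g * RC14.walk y f g ≤ (1 - ε) * ∑ g, f g ^ 2 := by
  have hK' : (0 : ℝ) < K := by exact_mod_cast hK
  have hD' : (0 : ℝ) < D := by exact_mod_cast hD1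
  have hn2 : (0 : ℝ) < n - 2 := by
    have : (3 : ℝ) ≤ n := by
      have : 3 ≤ n := by omega
      exact_mod_cast this
    linarith
  set F : FV n := WithLp.toLp 2 f with hF
  obtain ⟨a, ha, b, hb, hab⟩ := (LE n r).exists_add_mem_mem_orthogonal F
  have hsumi : ∀ v : FV n, ⟪(WithLp.toLp 2 (fun _ => 1) : FV n), v⟫_ℝ = ∑ g, v g := by
    intro v
    rw [inner_FV]
    exact sum_congr rfl fun g _ => by simp
  have hb0 : ∑ g, b g = 0 := by
    rw [← hsumi]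
    rw [Submodule.mem_orthogonal] at hb
    exact hb _ (one_LE r)
  have ha0 : ∑ g, a g = 0 := by
    have h1 : ∑ g, F g = ∑ g, a g + ∑ g, b g := by
      rw [hab, ← sum_add_distrib]
      rfl
    have h2 : ∑ g, F g = 0 := hf
    rw [h2, hb0, add_zero] at h1
    exact h1.symm
  have h1 : ⟪a, PW y a⟫_ℝ ≤ (1 - ε) * ‖a‖ ^ 2 := by
    rw [inner_PW, norm_FV]
    exact hlow _ ha ha0
  have h2 : ⟪b, PW y b⟫_ℝ ≤ (1 - ε) * ‖b‖ ^ 2 := by
    have h3 := gap_perp hK hr hD hb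
    have h4 : (r + 1) * ‖b‖ ^ 2 ≤
        (3 / 2 * ((n : ℝ) - 2) * K * (D : ℝ) ^ 2) * (‖b‖ ^ 2 - ⟪b, PW y b⟫_ℝ) := by
      have h5 : 3 / 4 * ((n : ℝ) - 2) * (4 / 3 * ((r + 1) / ((n : ℝ) - 2)) * ‖b‖ ^ 2) =
          (r + 1) * ‖b‖ ^ 2 := by field_simp
      have h6 := mul_le_mul_of_nonneg_left h3 (by positivity : 0 ≤ 3 / 4 * ((n : ℝ) - 2))
      rw [h5] at h6
      calc _ ≤ _ := h6
        _ = _ := by ring
    have h5 : (3 / 2 * ((n : ℝ) - 2) * K * (D : ℝ) ^ 2) * (ε * ‖b‖ ^ 2) ≤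
        (3 / 2 * ((n : ℝ) - 2) * K * (D : ℝ) ^ 2) * (‖b‖ ^ 2 - ⟪b, PW y b⟫_ℝ) := by
      refine le_trans ?_ h4
      calc _ = ε * (3 / 2 * ((n : ℝ) - 2) * K * (D : ℝ) ^ 2) * ‖b‖ ^ 2 := by ring
        _ ≤ _ := mul_le_mul_of_nonneg_right hε (by positivity)
    have h6 := le_of_mul_le_mul_left h5 (by positivity)
    linarith
  have h3 : ⟪a, PW y b⟫_ℝ = 0 := by
    have := PW_perp y hb
    rw [Submodule.mem_orthogonal] at this
    exact this a ha
  have h4 : ⟪b, PW y a⟫_ℝ = 0 := by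
    rw [Submodule.mem_orthogonal] at hb
    rw [real_inner_comm]
    exact hb _ (PW_LE y ha)
  have h5 : ⟪a, b⟫_ℝ = 0 := by
    rw [Submodule.mem_orthogonal] at hb
    exact hb a ha
  have h6 : ⟪F, PW y F⟫_ℝ = ⟪a, PW y a⟫_ℝ + ⟪b, PW y b⟫_ℝ := by
    rw [hab, map_add, inner_add_left, inner_add_right, inner_add_right, h3, h4]
    ring
  have h7 : ‖F‖ ^ 2 = ‖a‖ ^ 2 + ‖b‖ ^ 2 := by
    rw [hab, norm_add_sq_real, h5]
    ring
  have h8 : ⟪F, PW y F⟫_ℝ ≤ (1 - ε) * ‖F‖ ^ 2 := by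
    rw [h6, h7]
    linarith
  rw [inner_PW, norm_FV] at h8
  exact h8

/-- the three-cycles generate -/
lemma generate {y : Fin K → AG n} {D : ℕ}
    (hD : ∀ h : AG n, (h : Perm (Fin n)).IsThreeCycle → (h : Perm (Fin n)) ∈ PB y D) :
    Subgroup.closure (Set.range y) = ⊤ := by
  have h1 : alternatingGroup (Fin n) ≤
      (Subgroup.closure (Set.range y)).map (alternatingGroup (Fin n)).subtype := by
    refine le_trans (le_of_eq Perm.closure_three_cycles_eq_alternating.symm) ?_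
    rw [Subgroup.closure_le]
    intro σ hσ
    have h2 : σ ∈ alternatingGroup (Fin n) := Perm.IsThreeCycle.mem_alternatingGroup hσ
    obtain ⟨w, -, h4, h5⟩ := hD ⟨σ, h2⟩ hσ
    refine ⟨w.prod, ?_, h5⟩
    refine Subgroup.list_prod_mem _ fun z hz => ?_
    obtain ⟨i, hi | hi⟩ := h4 z hz
    · rw [hi]
      exact Subgroup.subset_closure ⟨i, rfl⟩
    · rw [hi]
      exact Subgroup.inv_mem _ (Subgroup.subset_closure ⟨i, rfl⟩)
  rw [eq_top_iff]
  intro g _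
  obtain ⟨g', hg', he⟩ := h1 g.2
  have : g' = g := Subtype.ext he
  exact this ▸ hg'

/-! ### one more generator -/

/-- the energy of the averaging operator -/
lemma av_energy {Ω : Type*} [Fintype Ω] {k : ℕ} (hk : 1 ≤ k) (s : Fin k → Perm Ω) (f : Ω → ℝ) :
    ∑ a, f a ^ 2 - ∑ a, f a * av s f a = (∑ i, ∑ a, (f (s i a) - f a) ^ 2) / (2 * k) := by
  have hk' : (0 : ℝ) < k := by exact_mod_cast hk
  have h1 : ∑ a, f a * av s f a = (∑ i, 2 * ∑ a, f a * f (s i a)) / (2 * k) := by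
    unfold av
    have h2 : ∀ a, f a * ((∑ i, (f (s i a) + f ((s i)⁻¹ a))) / (2 * k)) =
        (∑ i, (f a * f (s i a) + f a * f ((s i)⁻¹ a))) / (2 * k) := by
      intro a
      rw [mul_div_assoc', mul_sum]
      congr 1
      exact sum_congr rfl fun i _ => by ring
    rw [sum_congr rfl fun a _ => h2 a, ← sum_div, sum_comm]
    congr 1
    refine sum_congr rfl fun i _ => ?_
    rw [sum_add_distrib]
    have h3 : ∑ a, f a * f ((s i)⁻¹ a) = ∑ a, f a * f (s i a) := by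
      rw [← Equiv.sum_comp (s i) (fun a => f a * f ((s i)⁻¹ a))]
      refine sum_congr rfl fun a _ => ?_
      simp [mul_comm]
    rw [h3]
    ring
  have h4 : ∀ i : Fin k, ∑ a, (f (s i a) - f a) ^ 2 =
      2 * ∑ a, f a ^ 2 - 2 * ∑ a, f a * f (s i a) := by
    intro i
    have h5 : ∀ a, (f (s i a) - f a) ^ 2 = f (s i a) ^ 2 + f a ^ 2 - 2 * (f a * f (s i a)) :=
      fun a => by ring
    rw [sum_congr rfl fun a _ => h5 a, sum_sub_distrib, sum_add_distrib, ← mul_sum,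
      Equiv.sum_comp (s i) (fun a => f a ^ 2)]
    ring
  rw [h1, sum_congr rfl fun i _ => h4 i, sum_sub_distrib, sum_const, card_univ, Fintype.card_fin,
    nsmul_eq_mul]
  field_simp

lemma hasGap_cons {Ω : Type*} [Fintype Ω] {k : ℕ} (hk : 1 ≤ k) {s : Fin k → Perm Ω}
    {s' : Fin (k + 1) → Perm Ω} (h : ∀ i : Fin k, s' i.succ = s i) {ε : ℝ} (hg : HasGap s ε) :
    HasGap s' (k / (k + 1) * ε) := by
  intro f hf
  have hk' : (0 : ℝ) < k := by exact_mod_cast hk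
  have h1 := hg f hf
  have h2 := av_energy hk s f
  have h3 := av_energy (by omega : 1 ≤ k + 1) s' f
  rw [Fin.sum_univ_succ] at h3
  simp only [h] at h3
  have h4 : 0 ≤ ∑ a, (f (s' 0 a) - f a) ^ 2 := sum_nonneg fun a _ => sq_nonneg _
  set S := ∑ i, ∑ a, (f (s i a) - f a) ^ 2 with hS
  push_cast at h3
  have h5 : S / (2 * (k + 1)) ≤ ∑ a, f a ^ 2 - ∑ a, f a * av s' f a := by
    rw [h3]
    gcongr
    linarith
  have h6 : k / (k + 1) * (S / (2 * k)) = S / (2 * (k + 1)) := by field_simp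
  have h7 : k / (k + 1) * (ε * ∑ a, f a ^ 2) ≤ k / (k + 1) * (S / (2 * k)) := by
    apply mul_le_mul_of_nonneg_left _ (by positivity)
    rw [← h2]
    linarith
  have h8 : (1 - (k : ℝ) / (k + 1) * ε) * ∑ a, f a ^ 2 =
      ∑ a, f a ^ 2 - k / (k + 1) * (ε * ∑ a, f a ^ 2) := by ring
  rw [h8]
  linarith

lemma tgap_cons {k : ℕ} (hk : 1 ≤ k) {x : Fin k → AG n} (t : AG n) {ε : ℝ} {r : ℕ}
    (hg : TGap x ε r) : TGap (Fin.cons t x : Fin (k + 1) → AG n) (k / (k + 1) * ε) r :=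
  hasGap_cons hk (s := tw x r) (fun i => by simp [tw]) hg

lemma low_cons {k : ℕ} (hk : 1 ≤ k) {x : Fin k → AG n} (t : AG n) {ε : ℝ} {f : AG n → ℝ}
    (hg : ∑ g, f g * RC14.walk x f g ≤ (1 - ε) * ∑ g, f g ^ 2) :
    ∑ g, f g * RC14.walk (Fin.cons t x : Fin (k + 1) → AG n) f g ≤
      (1 - k / (k + 1) * ε) * ∑ g, f g ^ 2 := by
  have hk' : (0 : ℝ) < k := by exact_mod_cast hk
  have h2 := energy hk x (WithLp.toLp 2 f)
  have h3 := energy (by omega : 1 ≤ k + 1) (Fin.cons t x : Fin (k + 1) → AG n) (WithLp.toLp 2 f)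
  rw [Fin.sum_univ_succ] at h3
  simp only [Fin.cons_succ, Fin.cons_zero] at h3
  rw [inner_PW, norm_FV] at h2 h3
  have h4 : 0 ≤ ‖reg n t (WithLp.toLp 2 f) - WithLp.toLp 2 f‖ ^ 2 := by positivity
  set S := ∑ i, ‖reg n (x i) (WithLp.toLp 2 f) - WithLp.toLp 2 f‖ ^ 2 with hS
  push_cast at h3
  have h5 : S / (2 * (k + 1)) ≤ ∑ g, f g ^ 2 -
      ∑ g, f g * RC14.walk (Fin.cons t x : Fin (k + 1) → AG n) f g := by
    have h5' : S / (2 * (k + 1)) ≤ (‖reg n t (WithLp.toLp 2 f) - WithLp.toLp 2 f‖ ^ 2 + S) /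
        (2 * (k + 1)) := by
      gcongr
      linarith
    exact h5'.trans (le_of_eq h3.symm)
  have h6 : k / (k + 1) * (S / (2 * k)) = S / (2 * (k + 1)) := by field_simp
  have h2' : ∑ g, f g ^ 2 - ∑ g, f g * RC14.walk x f g = S / (2 * k) := h2
  have h7 : k / (k + 1) * (ε * ∑ g, f g ^ 2) ≤ k / (k + 1) * (S / (2 * k)) := by
    apply mul_le_mul_of_nonneg_left _ (by positivity)
    rw [← h2']
    linarith
  have h8 : (1 - (k : ℝ) / (k + 1) * ε) * ∑ g, f g ^ 2 =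
      ∑ g, f g ^ 2 - k / (k + 1) * (ε * ∑ g, f g ^ 2) := by ring
  rw [h8]
  linarith

end

end LG291
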