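import Pool.Agent.U291.LG.Tr

/-!
The level inequality for representations of the alternating group: if no nonzero vector is fixed by
the even permutations of `n - r` points, then every vector is moved by three-cycles.
-/

namespace LG291
open Finset Equiv
open scoped InnerProductSpace

noncomputable section

variable {n : ℕ} {V : Type*} [NormedAddCommGroup V] [InnerProductSpace ℝ V]
variable (σ : AG n →* Module.End ℝ V)

/-- restriction to an invariant subspace -/
def rs (W : Submodule ℝ V) (hW : ∀ g, ∀ v ∈ W, σ g v ∈ W) : AG n →* Module.End ℝ W where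
  toFun g := (σ g).restrict (hW g)
  map_one' := by
    ext w
    simp
  map_mul' g h := by
    ext w
    simp

lemma rs_apply (W : Submodule ℝ V) (hW : ∀ g, ∀ v ∈ W, σ g v ∈ W) (g : AG n) (w : W) :
    ((rs σ W hW g w : W) : V) = σ g w := rfl

lemma E_rs (W : Submodule ℝ V) (hW : ∀ g, ∀ v ∈ W, σ g v ∈ W) (A : Finset (Fin n)) (w : W) :
    ((E (rs σ W hW) A w : W) : V) = E σ A w := by
  unfold E
  simp only [LinearMap.smul_apply, LinearMap.sum_apply, Submodule.coe_smul, Submodule.coe_sum,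
    rs_apply]

lemma Orth_rs (W : Submodule ℝ V) (hW : ∀ g, ∀ v ∈ W, σ g v ∈ W) (hσ : Orth σ) :
    Orth (rs σ W hW) := fun g u v => hσ g u v

/-- the sum of the projections of the three-sets -/
def Q : Module.End ℝ V := ∑ A ∈ powersetCard 3 (univ : Finset (Fin n)), E σ A

lemma conj_Q (g : AG n) : σ g * Q σ * σ g⁻¹ = Q σ := by
  unfold Q
  rw [mul_sum, sum_mul]
  refine sum_bij (fun A _ => A.map (g : Perm (Fin n)).toEmbedding) ?_ ?_ ?_ ?_
  · intro A hA
    rw [mem_powersetCard] at hA ⊢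
    exact ⟨subset_univ _, by rw [card_map]; exact hA.2⟩
  · intro A _ B _ h
    exact map_injective _ h
  · intro B hB
    rw [mem_powersetCard] at hB
    refine ⟨B.map ((g⁻¹ : AG n) : Perm (Fin n)).toEmbedding, ?_, ?_⟩
    · rw [mem_powersetCard]
      exact ⟨subset_univ _, by rw [card_map]; exact hB.2⟩
    · ext z
      simp only [mem_map]
      constructor
      · rintro ⟨y, ⟨w, hw, rfl⟩, rfl⟩
        simpa using hw
      · intro hz
        exact ⟨(g : Perm (Fin n))⁻¹ z, ⟨z, hz, rfl⟩, by simp⟩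
  · intro A _
    exact conj_E σ g

lemma Q_comm (g : AG n) (v : V) : Q σ (σ g v) = σ g (Q σ v) := by
  have h1 := conj_Q σ g
  have h2 : Q σ * σ g = σ g * Q σ := by
    conv_lhs => rw [← h1]
    rw [mul_assoc, ← map_mul, inv_mul_cancel, map_one, mul_one]
  exact LinearMap.congr_fun h2 v

variable {σ}

lemma Q_symm (hσ : Orth σ) : (Q σ).IsSymmetric := by
  intro u v
  unfold Q
  rw [LinearMap.sum_apply, LinearMap.sum_apply, sum_inner, inner_sum]
  exact sum_congr rfl fun A _ => E_symm hσ A u v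

variable [FiniteDimensional ℝ V]

lemma H_two {A : Finset (Fin n)} (hA : #A = 2) : H A = {1} := by
  ext h
  rw [mem_singleton, mem_H]
  constructor
  · intro hh
    by_contra hne
    have hne' : (h : Perm (Fin n)) ≠ 1 := fun e => hne (Subtype.ext e)
    have hsub : (h : Perm (Fin n)).support ⊆ A := by
      intro a ha
      by_contra hcon
      exact (Perm.mem_support.1 ha) (hh a hcon)
    have h1 : #(h : Perm (Fin n)).support ≤ 2 := hA ▸ card_le_card hsub
    have h2 : 2 ≤ #(h : Perm (Fin n)).support := Perm.two_le_card_support_of_ne_one hne'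
    have h3 : (h : Perm (Fin n)).IsSwap := Perm.card_support_eq_two.1 (le_antisymm h1 h2)
    have h4 := h3.sign_eq
    have h5 : Perm.sign (h : Perm (Fin n)) = 1 := Perm.mem_alternatingGroup.1 h.2
    rw [h5] at h4
    exact absurd h4 (by decide)
  · rintro rfl a _
    rfl

/-- **the level inequality for representations** -/
theorem rep_level (hσ : Orth σ) {r : ℕ} (hr : r + 3 ≤ n)
    (hV : ∀ A : Finset (Fin n), #A = n - r → E σ A = 0) (v : V) :
    ⟪Q σ v, v⟫_ℝ ≤ (n.choose 3 : ℝ) * (1 - 2 / 3 * ((r + 1) / ((n : ℝ) - 2))) * ‖v‖ ^ 2 := by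
  classical
  rcases subsingleton_or_nontrivial V with hsub | hnt
  · have : v = 0 := Subsingleton.elim _ _
    rw [this]
    simp
  have hn2 : (0 : ℝ) < n - 2 := by
    have : (3 : ℝ) ≤ n := by
      have : 3 ≤ n := by omega
      exact_mod_cast this
    linarith
  have hC : (0 : ℝ) < n.choose 3 := by
    exact_mod_cast Nat.choose_pos (by omega)
  set T := Q σ with hT
  have hTs : T.IsSymmetric := Q_symm hσ
  set θ : ℝ := (⨆ x : { x : V // x ≠ 0 }, RCLike.re ⟪T x, x⟫_ℝ / ‖(x : V)‖ ^ 2 : ℝ) with hθ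
  have hev : Module.End.HasEigenvalue T θ := hTs.hasEigenvalue_iSup_of_finiteDimensional
  -- the eigenspace
  set W : Submodule ℝ V := Module.End.eigenspace T θ with hW
  have hWinv : ∀ g, ∀ w ∈ W, σ g w ∈ W := by
    intro g w hw
    rw [hW, Module.End.mem_eigenspace_iff] at hw ⊢
    rw [hT, Q_comm, ← hT, hw, map_smul]
  set ρ := rs σ W hWinv with hρ
  have hρo : Orth ρ := Orth_rs σ W hWinv hσ
  have hdim : 0 < Module.finrank ℝ W := by
    rw [Module.finrank_pos_iff, Submodule.nontrivial_iff_ne_bot]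
    exact hev
  have hd2 : d ρ 2 = Module.finrank ℝ W := by
    have h1 : E ρ (st n 2) = 1 := by
      unfold E
      rw [H_two (card_st (by omega))]
      simp
    unfold d D
    rw [h1]
    exact LinearMap.trace_one ℝ W
  have hd3 : (n.choose 3 : ℝ) * d ρ 3 = θ * d ρ 2 := by
    have h1 : Q ρ = θ • (1 : Module.End ℝ W) := by
      ext w
      have h2 : ((Q ρ w : W) : V) = T w := by
        rw [hT]
        unfold Q
        rw [LinearMap.sum_apply, LinearMap.sum_apply, Submodule.coe_sum]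
        exact sum_congr rfl fun A _ => E_rs σ W hWinv A w
      rw [h2]
      have h3 : T (w : V) = θ • (w : V) := Module.End.mem_eigenspace_iff.1 w.2
      rw [h3]
      rfl
    have h4 : LinearMap.trace ℝ W (Q ρ) = (n.choose 3 : ℝ) * d ρ 3 := by
      unfold Q
      rw [map_sum]
      have h5 : ∀ A ∈ powersetCard 3 (univ : Finset (Fin n)),
          LinearMap.trace ℝ W (E ρ A) = d ρ 3 := by
        intro A hA
        rw [mem_powersetCard] at hA
        have := D_eq_d (σ := ρ) (A := A) (by omega)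
        rw [hA.2] at this
        exact this
      rw [sum_congr rfl h5, sum_const, card_powersetCard, card_univ, Fintype.card_fin,
        nsmul_eq_mul]
    rw [← h4, h1, map_smul, LinearMap.trace_one, hd2, smul_eq_mul]
  have hzero : d ρ (n - r) = 0 := by
    have h1 : #(st n (n - r)) = n - r := card_st (Nat.sub_le _ _)
    have h2 : E ρ (st n (n - r)) = 0 := by
      ext w
      rw [E_rs, hV _ h1]
      rfl
    unfold d D
    rw [h2, map_zero]
  -- the bound for the largest eigenvalue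
  have hθle : θ ≤ (n.choose 3 : ℝ) * (1 - 2 / 3 * ((r + 1) / ((n : ℝ) - 2))) := by
    by_contra hcon
    push Not at hcon
    have hd2pos : 0 < d ρ 2 := by
      rw [hd2]
      exact_mod_cast hdim
    have h1 := recur (n := n) (r := r) (d ρ) (by omega) hr (fun j => D_nonneg hρo _) hd2pos
      (fun a ha han h0 => quad hρo ha han h0) (by
        have h2 : (1 - 2 / 3 * ((r + 1) / ((n : ℝ) - 2))) * d ρ 2 < d ρ 3 := by
          have h3 : (n.choose 3 : ℝ) * ((1 - 2 / 3 * ((r + 1) / ((n : ℝ) - 2))) * d ρ 2) <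
              (n.choose 3 : ℝ) * d ρ 3 := by
            rw [hd3, ← mul_assoc]
            exact mul_lt_mul_of_pos_right hcon hd2pos
          exact lt_of_mul_lt_mul_left h3 hC.le
        have h4 : d ρ 2 - d ρ 3 < 2 / 3 * ((r + 1) / ((n : ℝ) - 2)) * d ρ 2 := by linarith
        calc 3 / 2 * ((n : ℝ) - 2) * (d ρ 2 - d ρ 3)
            < 3 / 2 * ((n : ℝ) - 2) * (2 / 3 * ((r + 1) / ((n : ℝ) - 2)) * d ρ 2) :=
              mul_lt_mul_of_pos_left h4 (by positivity)
          _ = (r + 1) * d ρ 2 := by field_simp)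
      (n - r - 1) (by omega) (by omega)
    have h5 : n - r - 1 + 1 = n - r := by omega
    rw [h5, hzero] at h1
    exact lt_irrefl _ h1.2.1
  -- the Rayleigh quotient
  by_cases hv : v = 0
  · rw [hv]
    simp
  have hv2 : 0 < ‖v‖ ^ 2 := by
    have : 0 < ‖v‖ := norm_pos_iff.2 hv
    positivity
  have hbdd : BddAbove (Set.range fun x : { x : V // x ≠ 0 } =>
      (RCLike.re ⟪T x, x⟫_ℝ / ‖(x : V)‖ ^ 2 : ℝ)) := by
    refine ⟨‖(LinearMap.toContinuousLinearMap T)‖, ?_⟩
    rintro _ ⟨x, rfl⟩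
    have hx : 0 < ‖(x : V)‖ := norm_pos_iff.2 x.2
    simp only
    rw [div_le_iff₀ (by positivity)]
    have h1 : ⟪T x, x⟫_ℝ ≤ ‖T x‖ * ‖(x : V)‖ := real_inner_le_norm _ _
    have h2 : ‖T x‖ ≤ ‖(LinearMap.toContinuousLinearMap T)‖ * ‖(x : V)‖ :=
      (LinearMap.toContinuousLinearMap T).le_opNorm x
    have h3 : (RCLike.re ⟪T x, x⟫_ℝ : ℝ) = ⟪T x, x⟫_ℝ := rfl
    rw [h3]
    nlinarith
  have h1 : ⟪T v, v⟫_ℝ / ‖v‖ ^ 2 ≤ θ := le_ciSup hbdd ⟨v, hv⟩
  rw [div_le_iff₀ hv2] at h1
  exact h1.trans (mul_le_mul_of_nonneg_right hθle hv2.le)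

end

end LG291
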