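import Pool.Agent.U516.RD.Red

/-!
# Project RG, package T: every 3-cycle is a word of polylogarithmic length

Commutators with random conjugates: from support `s ≤ n / 8` down to support `< √(8 n)`, then to
support less than `120`, then to a 3-cycle.
-/

set_option autoImplicit false

namespace LG291
open RD516 Finset Equiv

noncomputable section

variable {n k : ℕ} {x : Fin k → alternatingGroup (Fin n)}

/-- the indicator function of `S` -/
def ind (S : Finset (Fin n)) (y : Fin n) : ℝ := if y ∈ S then 1 else 0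

lemma ind_sum (S : Finset (Fin n)) : ∑ y, ind S y = #S := by
  unfold ind
  rw [sum_ite_mem, univ_inter, sum_const, nsmul_eq_mul, mul_one]

lemma ind_sq (S : Finset (Fin n)) (y : Fin n) : ind S y * ind S y = ind S y := by
  unfold ind
  split_ifs <;> simp

lemma ind01 (S : Finset (Fin n)) (y : Fin n) : ind S y = 0 ∨ ind S y = 1 := by
  unfold ind
  split_ifs <;> simp

def F1 (t g : Perm (Fin n)) : ℝ :=
  ∑ y ∈ t.support, (1 - ind t.support (g y)) * ind t.support (g (t y))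

def F2 (t g : Perm (Fin n)) : ℝ :=
  ∑ y ∈ t.support, ∑ z ∈ t.support, ind t.support (g y) * ind t.support (g z)

def F3 (t g : Perm (Fin n)) : ℝ := ∑ y ∈ t.support, ind t.support (g y)

lemma F1_eq (t h : Perm (Fin n)) : F1 t h =
    #(t.support.filter fun y => h y ∉ t.support ∧ h (t y) ∈ t.support) := by
  unfold F1
  rw [card_filter]
  push_cast
  refine sum_congr rfl fun y _ => ?_
  by_cases h1 : h y ∈ t.support <;> by_cases h2 : h (t y) ∈ t.support <;>
    simp only [ind, h1, h2] <;> simp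

lemma F3_eq (t h : Perm (Fin n)) : F3 t h = #(t.support.filter fun y => h y ∈ t.support) := by
  unfold F3
  rw [card_filter]
  push_cast
  refine sum_congr rfl fun y _ => ?_
  by_cases h1 : h y ∈ t.support <;> simp only [ind, h1] <;> simp

lemma F2_eq (t h : Perm (Fin n)) :
    F2 t h = (#(t.support.filter fun y => h y ∈ t.support) : ℝ) ^ 2 := by
  rw [← F3_eq, sq]
  unfold F2 F3
  rw [sum_mul_sum]

/-- the mean of `F1` -/
lemma mean1 (hk : 1 ≤ k) {ε : ℝ} (hε : ε ≤ 2) (hg : TGap x ε 2) {L : ℕ} (hn : 2 ≤ n)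
    (hL : (1 - ε / 2) ^ L * (n : ℝ) ^ 2 ≤ 1 / (16 * (n : ℝ) ^ 2)) (t : Perm (Fin n)) :
    (#t.support : ℝ) * ((n - #t.support) * #t.support / (n * (n - 1)) - 1 / (4 * n)) ≤
      (RL x)^[L] (F1 t) 1 := by
  classical
  set S := t.support with hS
  have hty : ∀ y ∈ S, y ≠ t y := fun y hy => (Perm.mem_support.1 hy).symm
  set φ1 : RC14.Tup 2 n → ℝ := fun b => (1 - ind S (b 0)) * ind S (b 1) with hφ1
  have hb1 : ∀ b, |φ1 b| ≤ 1 := by
    intro b
    rcases ind01 S (b 0) with h | h <;> rcases ind01 S (b 1) with h' | h' <;>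
      simp only [hφ1, h, h'] <;> norm_num
  have hm1 : ∑ b, φ1 b = (n - #S) * #S := by
    have h1 := sum_tup2 (n := n) (fun u v => (1 - ind S u) * ind S v)
    rw [hφ1, h1]
    have h2 : ∑ u, ∑ v, (1 - ind S u) * ind S v = ((n : ℝ) - #S) * #S := by
      have h3 : ∀ u, ∑ v, (1 - ind S u) * ind S v = (1 - ind S u) * #S := fun u => by
        rw [← mul_sum, ind_sum]
      rw [sum_congr rfl fun u _ => h3 u, ← sum_mul, sum_sub_distrib, ind_sum, sum_const,
        card_univ, Fintype.card_fin, nsmul_eq_mul, mul_one]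
    have h4 : ∑ u, (1 - ind S u) * ind S u = 0 := by
      refine sum_eq_zero fun u _ => ?_
      have := ind_sq S u
      linarith
    rw [h2, h4, sub_zero]
  have hF : F1 t = fun g : Perm (Fin n) => ∑ y ∈ S, (1 - ind S (g y)) * ind S (g (t y)) := rfl
  rw [hF, RLi_sum]
  have h1 : ∀ y ∈ S, ((n : ℝ) - #S) * #S / (n * (n - 1)) - 1 / (4 * n) ≤
      (RL x)^[L] (fun g => (1 - ind S (g y)) * ind S (g (t y))) 1 := by
    intro y hy
    have h2 := W_near hk hε hg hn hL φ1 hb1 (pr y (t y) (hty y hy))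
    rw [hm1] at h2
    have h3 := (abs_le.1 h2).1
    have h4 : (fun g : Perm (Fin n) => φ1 (RC14.mv g (pr y (t y) (hty y hy)))) =
      fun g : Perm (Fin n) => (1 - ind S (g y)) * ind S (g (t y)) := rfl
    rw [h4] at h3
    linarith
  have h2 := card_nsmul_le_sum S _ _ h1
  rw [nsmul_eq_mul] at h2
  exact h2

/-- the mean of `F3` -/
lemma mean3 (hk : 1 ≤ k) {ε : ℝ} (hε : ε ≤ 2) (hg : TGap x ε 2) {L : ℕ} (hn : 2 ≤ n)
    (hL : (1 - ε / 2) ^ L * (n : ℝ) ^ 2 ≤ 1 / (16 * (n : ℝ) ^ 2)) (t : Perm (Fin n)) :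
    (#t.support : ℝ) * ((n * #t.support - #t.support) / (n * (n - 1)) - 1 / (4 * n)) ≤
      (RL x)^[L] (F3 t) 1 := by
  classical
  set S := t.support with hS
  have hty : ∀ y ∈ S, y ≠ t y := fun y hy => (Perm.mem_support.1 hy).symm
  set φ3 : RC14.Tup 2 n → ℝ := fun b => ind S (b 0) with hφ3
  have hb3 : ∀ b, |φ3 b| ≤ 1 := by
    intro b
    rcases ind01 S (b 0) with h | h <;> simp only [hφ3, h] <;> norm_num
  have hm3 : ∑ b, φ3 b = (n : ℝ) * #S - #S := by
    have h1 := sum_tup2 (n := n) (fun u _ => ind S u)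
    rw [hφ3, h1, ind_sum]
    have h2 : ∑ u, ∑ _v : Fin n, ind S u = (n : ℝ) * #S := by
      have h3 : ∀ u, ∑ _v : Fin n, ind S u = n * ind S u := fun u => by
        rw [sum_const, card_univ, Fintype.card_fin, nsmul_eq_mul]
      rw [sum_congr rfl fun u _ => h3 u, ← mul_sum, ind_sum]
    rw [h2]
  have hF : F3 t = fun g : Perm (Fin n) => ∑ y ∈ S, ind S (g y) := rfl
  rw [hF, RLi_sum]
  have h1 : ∀ y ∈ S, ((n : ℝ) * #S - #S) / (n * (n - 1)) - 1 / (4 * n) ≤
      (RL x)^[L] (fun g => ind S (g y)) 1 := by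
    intro y hy
    have h2 := W_near hk hε hg hn hL φ3 hb3 (pr y (t y) (hty y hy))
    rw [hm3] at h2
    have h3 := (abs_le.1 h2).1
    have h4 : (fun g : Perm (Fin n) => φ3 (RC14.mv g (pr y (t y) (hty y hy)))) =
      fun g : Perm (Fin n) => ind S (g y) := rfl
    rw [h4] at h3
    linarith
  have h2 := card_nsmul_le_sum S _ _ h1
  rw [nsmul_eq_mul] at h2
  exact h2

/-- the mean of `F2` -/
lemma mean2 (hk : 1 ≤ k) {ε : ℝ} (hε : ε ≤ 2) (hg : TGap x ε 2) {L : ℕ} (hn : 2 ≤ n)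
    (hL : (1 - ε / 2) ^ L * (n : ℝ) ^ 2 ≤ 1 / (16 * (n : ℝ) ^ 2)) (t : Perm (Fin n))
    (hs1 : 1 ≤ #t.support) :
    (RL x)^[L] (F2 t) 1 ≤
      #t.support * (#t.support - 1) *
        ((#t.support * #t.support - #t.support) / (n * (n - 1)) + 1 / (4 * n)) +
      #t.support * ((n * #t.support - #t.support) / (n * (n - 1)) + 1 / (4 * n)) := by
  classical
  set S := t.support with hS
  have hty : ∀ y ∈ S, y ≠ t y := fun y hy => (Perm.mem_support.1 hy).symm
  set s : ℝ := (#S : ℝ) with hs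
  set φ2 : RC14.Tup 2 n → ℝ := fun b => ind S (b 0) * ind S (b 1) with hφ2
  set φ3 : RC14.Tup 2 n → ℝ := fun b => ind S (b 0) with hφ3
  have hb2 : ∀ b, |φ2 b| ≤ 1 := by
    intro b
    rcases ind01 S (b 0) with h | h <;> rcases ind01 S (b 1) with h' | h' <;>
      simp only [hφ2, h, h'] <;> norm_num
  have hb3 : ∀ b, |φ3 b| ≤ 1 := by
    intro b
    rcases ind01 S (b 0) with h | h <;> simp only [hφ3, h] <;> norm_num
  have hm2 : ∑ b, φ2 b = s * s - s := by
    have h1 := sum_tup2 (n := n) (fun u v => ind S u * ind S v)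
    rw [hφ2, h1]
    have h2 : ∑ u, ∑ v, ind S u * ind S v = s * s := by
      have h3 : ∀ u, ∑ v, ind S u * ind S v = ind S u * s := fun u => by
        rw [← mul_sum, ind_sum]
      rw [sum_congr rfl fun u _ => h3 u, ← sum_mul, ind_sum]
    rw [h2, sum_congr rfl fun u _ => ind_sq S u, ind_sum]
  have hm3 : ∑ b, φ3 b = n * s - s := by
    have h1 := sum_tup2 (n := n) (fun u _ => ind S u)
    rw [hφ3, h1, ind_sum]
    have h2 : ∑ u, ∑ _v : Fin n, ind S u = n * s := by
      have h3 : ∀ u, ∑ _v : Fin n, ind S u = n * ind S u := fun u => by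
        rw [sum_const, card_univ, Fintype.card_fin, nsmul_eq_mul]
      rw [sum_congr rfl fun u _ => h3 u, ← mul_sum, ind_sum]
    rw [h2]
  have hF : F2 t = fun g : Perm (Fin n) => ∑ y ∈ S, ∑ z ∈ S, ind S (g y) * ind S (g z) := rfl
  rw [hF, RLi_sum]
  have h1 : ∀ y ∈ S, (RL x)^[L] (fun g => ∑ z ∈ S, ind S (g y) * ind S (g z)) 1 ≤
      (s - 1) * ((s * s - s) / (n * (n - 1)) + 1 / (4 * n)) +
      ((n * s - s) / (n * (n - 1)) + 1 / (4 * n)) := by
    intro y hy
    rw [RLi_sum]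
    change ∑ z ∈ S, (RL x)^[L] (fun g => ind S (g y) * ind S (g z)) 1 ≤ _
    rw [← add_sum_erase S _ hy, add_comm]
    refine add_le_add ?_ ?_
    · have h2 : ∀ z ∈ S.erase y, (RL x)^[L] (fun g => ind S (g y) * ind S (g z)) 1 ≤
          (s * s - s) / (n * (n - 1)) + 1 / (4 * n) := by
        intro z hz
        have h3 := W_near hk hε hg hn hL φ2 hb2 (pr y z (ne_of_mem_erase hz).symm)
        rw [hm2] at h3
        have h4 := (abs_le.1 h3).2
        have h5 : (fun g : Perm (Fin n) => φ2 (RC14.mv g (pr y z (ne_of_mem_erase hz).symm))) =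
          fun g : Perm (Fin n) => ind S (g y) * ind S (g z) := rfl
        rw [h5] at h4
        linarith
      have h3 := sum_le_card_nsmul _ _ _ h2
      have h6 : ((#S - 1 : ℕ) : ℝ) = s - 1 := by rw [Nat.cast_sub hs1, Nat.cast_one]
      rw [nsmul_eq_mul, card_erase_of_mem hy, h6] at h3
      exact h3
    · have h3 := W_near hk hε hg hn hL φ3 hb3 (pr y (t y) (hty y hy))
      rw [hm3] at h3
      have h4 := (abs_le.1 h3).2
      have h5 : (fun g : Perm (Fin n) => φ3 (RC14.mv g (pr y (t y) (hty y hy)))) =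
        fun g : Perm (Fin n) => ind S (g y) * ind S (g y) := by
        funext g
        rw [ind_sq]
        rfl
      rw [h5] at h4
      linarith
  have h2 := sum_le_card_nsmul _ _ _ h1
  rw [nsmul_eq_mul] at h2
  refine h2.trans (le_of_eq ?_)
  ring

/-- the bound `m ^ 2 + 1.25 m` -/
lemma mean2' (hk : 1 ≤ k) {ε : ℝ} (hε : ε ≤ 2) (hg : TGap x ε 2) {L : ℕ} (hn : 2 ≤ n)
    (hL : (1 - ε / 2) ^ L * (n : ℝ) ^ 2 ≤ 1 / (16 * (n : ℝ) ^ 2)) (t : Perm (Fin n))
    (hs1 : 1 ≤ #t.support) :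
    (RL x)^[L] (F2 t) 1 ≤
      ((#t.support : ℝ) ^ 2 / n) ^ 2 + 5 / 4 * ((#t.support : ℝ) ^ 2 / n) := by
  refine (mean2 hk hε hg hn hL t hs1).trans ?_
  have hsn : #t.support ≤ n := by
    have := card_le_univ t.support
    rwa [Fintype.card_fin] at this
  have hn' : (2 : ℝ) ≤ n := by exact_mod_cast hn
  have hs' : (1 : ℝ) ≤ #t.support := by exact_mod_cast hs1
  have hsn' : (#t.support : ℝ) ≤ n := by exact_mod_cast hsn
  obtain ⟨s, hs⟩ : ∃ s : ℝ, s = #t.support := ⟨_, rfl⟩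
  obtain ⟨N, hN⟩ : ∃ N : ℝ, N = n := ⟨_, rfl⟩
  rw [← hs, ← hN] at hsn' ⊢
  rw [← hs] at hs'
  rw [← hN] at hn'
  have hN1 : 0 < N - 1 := by linarith
  have hN0 : 0 < N := by linarith
  have e : s * (s - 1) * ((s * s - s) / (N * (N - 1)) + 1 / (4 * N)) +
      s * ((N * s - s) / (N * (N - 1)) + 1 / (4 * N)) =
      s ^ 2 * (s - 1) ^ 2 / (N * (N - 1)) + 5 / 4 * (s ^ 2 / N) := by
    field_simp
    ring
  rw [e]
  have h1 : s ^ 2 * (s - 1) ^ 2 / (N * (N - 1)) ≤ (s ^ 2 / N) ^ 2 := by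
    rw [div_pow, div_le_div_iff₀ (by positivity) (by positivity)]
    have h2 : N * (s - 1) ^ 2 ≤ s ^ 2 * (N - 1) := by
      nlinarith [mul_nonneg (by linarith : (0 : ℝ) ≤ s) (by linarith : (0 : ℝ) ≤ N - s),
        mul_nonneg hN0.le (by linarith : (0 : ℝ) ≤ s - 1)]
    have h3 := mul_le_mul_of_nonneg_left h2 (by positivity : 0 ≤ s ^ 2 * N)
    nlinarith [h3]
  linarith

lemma pos2 {F H : Perm (Fin n) → ℝ} (a b : ℝ) {L : ℕ}
    (h : 0 < a * (RL x)^[L] F 1 + b * (RL x)^[L] H 1) :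
    ∃ u ∈ PB x L, 0 < a * F u + b * H u := by
  have e1 : (RL x)^[L] (fun g => a * F g + b * H g) =
      fun g => a * (RL x)^[L] F g + b * (RL x)^[L] H g := by
    have e2 := RLi_add (x := x) (fun g => a * F g) (fun g => b * H g) L
    have e3 := RLi_smul (x := x) a F L
    have e4 := RLi_smul (x := x) b H L
    rw [e2, e3, e4]
  have h2 : 0 < (RL x)^[L] (fun g => a * F g + b * H g) 1 := by
    rw [e1]
    exact h
  obtain ⟨u, hu, h3⟩ := RLi_pos L h2
  rw [mul_one] at h3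
  exact ⟨u, hu, h3⟩

lemma comm_mem {ℓ L : ℕ} {t h : Perm (Fin n)} (ht : t ∈ PB x ℓ) (hh : h ∈ PB x L) :
    t * (h⁻¹ * t * h) * t⁻¹ * (h⁻¹ * t * h)⁻¹ ∈ PB x (4 * ℓ + 4 * L) := by
  have hconj : h⁻¹ * t * h ∈ PB x (ℓ + 2 * L) := by
    have := PB.conj ht (PB.inv hh)
    rwa [inv_inv] at this
  exact PB.mono (by omega) (PB.mul (PB.mul (PB.mul ht hconj) (PB.inv ht)) (PB.inv hconj))

/-- from support between `√(n / 2)` and `√(8 n)` to bounded support -/
lemma case2 (hk : 1 ≤ k) {ε : ℝ} (hε : ε ≤ 2) (hg : TGap x ε 2) {L ℓ : ℕ} (hn : 100000 ≤ n)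
    (hL : (1 - ε / 2) ^ L * (n : ℝ) ^ 2 ≤ 1 / (16 * (n : ℝ) ^ 2)) {t : Perm (Fin n)}
    (ht : t ∈ PB x ℓ) (h1 : n ≤ 2 * #t.support ^ 2) (h2 : #t.support ^ 2 < 8 * n) :
    ∃ u ∈ PB x (4 * ℓ + 4 * L), u ≠ 1 ∧ #u.support < 120 := by
  have hn' : (100000 : ℝ) ≤ n := by exact_mod_cast hn
  have h1' : (n : ℝ) ≤ 2 * (#t.support : ℝ) ^ 2 := by exact_mod_cast h1
  have h2' : (#t.support : ℝ) ^ 2 < 8 * n := by exact_mod_cast h2
  have hs1 : 1 ≤ #t.support := by
    by_contra h
    have : #t.support = 0 := by omega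
    rw [this] at h1
    omega
  have m1 := mean1 hk hε hg (by omega) hL t
  have m2 := mean2' hk hε hg (by omega) hL t hs1
  have hpos : 0 < 1 * (RL x)^[L] (F1 t) 1 + (-(1 / 40)) * (RL x)^[L] (F2 t) 1 := by
    have hs0 : (0 : ℝ) ≤ #t.support := Nat.cast_nonneg _
    obtain ⟨s, hs⟩ : ∃ s : ℝ, s = #t.support := ⟨_, rfl⟩
    obtain ⟨N, hN⟩ : ∃ N : ℝ, N = n := ⟨_, rfl⟩
    rw [← hs, ← hN] at m1 m2 h1' h2'
    rw [← hs] at hs0
    rw [← hN] at hn'
    obtain ⟨m, hm⟩ : ∃ m : ℝ, m = s ^ 2 / N := ⟨_, rfl⟩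
    rw [← hm] at m2
    have hN0 : 0 < N := by linarith
    have hmN : m * N = s ^ 2 := by rw [hm]; field_simp
    have hm0 : 0 < m := by rw [hm]; exact div_pos (by linarith) hN0
    have hm8 : m < 8 := by rw [hm, div_lt_iff₀ hN0]; exact h2'
    have hs200 : 200 ≤ s := by nlinarith
    have hsN : s ≤ N / 20 := by
      by_contra hcon
      push Not at hcon
      nlinarith
    have h3 : 9 / 10 * m ≤ s * ((N - s) * s / (N * (N - 1)) - 1 / (4 * N)) := by
      have e1 : 19 / 20 * m ≤ s * ((N - s) * s / (N * (N - 1))) := by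
        rw [hm, ← mul_div_assoc, ← mul_div_assoc, div_le_div_iff₀ hN0 (by nlinarith)]
        have h5 : 19 / 20 * (N - 1) ≤ N - s := by linarith
        have h6 := mul_le_mul_of_nonneg_left h5 (by positivity : 0 ≤ s ^ 2 * N)
        nlinarith [h6]
      have e2 : s * (1 / (4 * N)) ≤ 1 / 20 * m := by
        rw [hm, mul_one_div, ← mul_div_assoc, div_le_div_iff₀ (by linarith) hN0]
        nlinarith [mul_nonneg hN0.le (by nlinarith : 0 ≤ s * (s - 5))]
      rw [mul_sub]
      linarith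
    have h4 : m ^ 2 ≤ 8 * m := by nlinarith
    linarith
  obtain ⟨h, hh, hh2⟩ := pos2 _ _ hpos
  rw [F1_eq, F2_eq] at hh2
  obtain ⟨b1, b2, b3⟩ := comm_bounds t h
  obtain ⟨A, hA⟩ : ∃ A, A = #(t.support.filter fun y => h y ∈ t.support) := ⟨_, rfl⟩
  obtain ⟨B, hB⟩ : ∃ B, B = #(t.support.filter fun y => h y ∉ t.support ∧ h (t y) ∈ t.support) :=
    ⟨_, rfl⟩
  rw [← hA] at b2 b3 hh2
  rw [← hB] at b1 b3 hh2
  have hBA : (B : ℝ) ≤ A := by exact_mod_cast b3
  have hA0 : (0 : ℝ) ≤ A := Nat.cast_nonneg _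
  have hB1 : 1 ≤ B := by
    by_contra hcon
    have : B = 0 := by omega
    rw [this] at hh2
    push_cast at hh2
    nlinarith
  have hA40 : A < 40 := by
    by_contra hcon
    push Not at hcon
    have h5 : (40 : ℝ) ≤ A := by exact_mod_cast hcon
    nlinarith
  refine ⟨_, comm_mem ht hh, ?_, by omega⟩
  intro h1
  rw [h1, Perm.support_one, card_empty] at b1
  omega

/-- two permutations whose supports meet in one point -/
lemma three_of_meet {t t' : Perm (Fin n)} {p : Fin n} (hp : t p ≠ p) (hp' : t' p ≠ p)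
    (hd : ∀ z, z ≠ p → t z = z ∨ t' z = z) : (t * t' * t⁻¹ * t'⁻¹).IsThreeCycle := by
  have hq : t' (t p) = t p := by
    rcases hd (t p) hp with h | h
    · exact absurd (t.injective h) hp
    · exact h
  have hr : t (t' p) = t' p := by
    rcases hd (t' p) hp' with h | h
    · exact h
    · exact absurd (t'.injective h) hp'
  have hqr : t p ≠ t' p := by
    intro h
    rw [h] at hq
    exact hp' (t'.injective hq)
  have key : t * t' = (swap (t p) p * swap (t p) (t' p)) * (t' * t) := by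
    ext1 y
    simp only [Perm.mul_apply]
    by_cases h1 : y = p
    · subst h1
      rw [hq, hr, swap_apply_left, swap_apply_of_ne_of_ne hqr.symm hp']
    · by_cases h2 : t y = p
      · have h3 : t y ≠ y := by rw [h2]; exact fun h => h1 h.symm
        have h4 : t' y = y := (hd y h1).resolve_left h3
        rw [h4, h2, swap_apply_right, swap_apply_left]
      · by_cases h3 : t' y = p
        · have h4 : t' y ≠ y := by rw [h3]; exact fun h => h1 h.symm
          have h5 : t y = y := (hd y h1).resolve_right h4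
          rw [h5, h3, swap_apply_of_ne_of_ne hp.symm hp'.symm, swap_apply_right]
        · by_cases h4 : t y = y
          · have h5 : t (t' y) = t' y := by
              by_cases h6 : t' y = y
              · rw [h6, h4]
              · exact (hd (t' y) h3).resolve_right fun h => h6 (t'.injective h)
            rw [h4, h5]
            have h7 : t' y ≠ t p := by
              intro h
              rw [← hq] at h
              have h8 := t'.injective h
              rw [h8] at h4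
              exact hp (t.injective h4)
            have h8 : t' y ≠ t' p := fun h => h1 (t'.injective h)
            rw [swap_apply_of_ne_of_ne h7 h8, swap_apply_of_ne_of_ne h7 h3]
          · have h5 : t' y = y := (hd y h1).resolve_left h4
            have h6 : t' (t y) = t y := (hd (t y) h2).resolve_left fun h => h4 (t.injective h)
            rw [h5, h6]
            have h7 : t y ≠ t p := fun h => h1 (t.injective h)
            have h8 : t y ≠ t' p := by
              intro h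
              rw [← hr] at h
              have h9 := t.injective h
              rw [h9] at h5
              exact hp' (t'.injective h5)
            rw [swap_apply_of_ne_of_ne h7 h8, swap_apply_of_ne_of_ne h7 h2]
  have h1 : t * t' * t⁻¹ * t'⁻¹ = swap (t p) p * swap (t p) (t' p) := by
    have : t * t' * t⁻¹ * t'⁻¹ = (t * t') * (t' * t)⁻¹ := by group
    rw [this, key]
    group
  rw [h1]
  exact Perm.isThreeCycle_swap_mul_swap_same hp hqr hp'.symm

/-- from small support to a 3-cycle -/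
lemma case3 (hk : 1 ≤ k) {ε : ℝ} (hε : ε ≤ 2) (hg : TGap x ε 2) {L ℓ : ℕ} (hn : 2 ≤ n)
    (hL : (1 - ε / 2) ^ L * (n : ℝ) ^ 2 ≤ 1 / (16 * (n : ℝ) ^ 2)) {t : Perm (Fin n)}
    (ht : t ∈ PB x ℓ) (ht1 : t ≠ 1) (h2 : 2 * #t.support ^ 2 < n) :
    ∃ c ∈ PB x (4 * ℓ + 4 * L), c.IsThreeCycle := by
  have hs2 : 2 ≤ #t.support := Perm.two_le_card_support_of_ne_one ht1
  have m2 := mean2' hk hε hg hn hL t (by omega)
  have m3 := mean3 hk hε hg hn hL t
  have hpos : 0 < 2 * (RL x)^[L] (F3 t) 1 + (-1) * (RL x)^[L] (F2 t) 1 := by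
    have hs0 : (2 : ℝ) ≤ #t.support := by exact_mod_cast hs2
    have h2' : 2 * (#t.support : ℝ) ^ 2 < n := by exact_mod_cast h2
    obtain ⟨s, hs⟩ : ∃ s : ℝ, s = #t.support := ⟨_, rfl⟩
    obtain ⟨N, hN⟩ : ∃ N : ℝ, N = n := ⟨_, rfl⟩
    rw [← hs, ← hN] at m2 m3 h2'
    rw [← hs] at hs0
    obtain ⟨m, hm⟩ : ∃ m : ℝ, m = s ^ 2 / N := ⟨_, rfl⟩
    rw [← hm] at m2
    have hN8 : 8 < N := by nlinarith
    have hN0 : 0 < N := by linarith
    have hN1 : 0 < N - 1 := by linarith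
    have hm0 : 0 < m := by rw [hm]; positivity
    have hm2 : m < 1 / 2 := by rw [hm, div_lt_iff₀ hN0]; linarith
    have e1 : s * ((N * s - s) / (N * (N - 1)) - 1 / (4 * N)) = m - s / (4 * N) := by
      rw [hm]
      field_simp
    have e2 : s / (4 * N) ≤ m / 8 := by
      rw [hm, div_div, div_le_div_iff₀ (by linarith) (by linarith)]
      nlinarith [mul_nonneg hN0.le (by nlinarith : 0 ≤ s * (s - 2))]
    rw [e1] at m3
    nlinarith
  obtain ⟨h, hh, hh2⟩ := pos2 _ _ hpos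
  rw [F3_eq, F2_eq] at hh2
  obtain ⟨A, hA⟩ : ∃ A, A = #(t.support.filter fun y => h y ∈ t.support) := ⟨_, rfl⟩
  rw [← hA] at hh2
  have hA1 : A = 1 := by
    have h3 : A ≠ 0 := by
      rintro rfl
      simp at hh2
    have h4 : A < 2 := by
      by_contra hcon
      push Not at hcon
      have h5 : (2 : ℝ) ≤ A := by exact_mod_cast hcon
      nlinarith
    omega
  rw [hA1] at hA
  obtain ⟨p, hp⟩ := card_eq_one.1 hA.symm
  have hpm : p ∈ t.support.filter fun y => h y ∈ t.support := by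
    rw [hp]; exact mem_singleton_self p
  rw [mem_filter, Perm.mem_support, Perm.mem_support] at hpm
  have hconj : ∀ y, h y ∉ t.support → (h⁻¹ * t * h) y = y := by
    intro y hy
    rw [Perm.notMem_support] at hy
    rw [Perm.mul_apply, Perm.mul_apply, hy]
    simp
  refine ⟨_, comm_mem ht hh, three_of_meet (p := p) hpm.1 ?_ ?_⟩
  · intro h3
    apply hpm.2
    have h4 : h ((h⁻¹ * t * h) p) = h p := by rw [h3]
    rw [Perm.mul_apply, Perm.mul_apply] at h4
    simpa using h4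
  · intro z hz
    by_cases h3 : t z = z
    · exact Or.inl h3
    · right
      apply hconj
      intro h4
      apply hz
      have h5 : z ∈ t.support.filter fun y => h y ∈ t.support :=
        mem_filter.2 ⟨Perm.mem_support.2 h3, h4⟩
      rw [hp, mem_singleton] at h5
      exact h5

/-- the descent to support `< √(8 n)` -/
lemma descend (hk : 1 ≤ k) {ε : ℝ} (hε : ε ≤ 2) (hg : TGap x ε 2) {L : ℕ} (hn : 1 ≤ n)
    (hL : (1 - ε / 2) ^ L * (n : ℝ) ^ 2 ≤ 1 / (16 * (n : ℝ) ^ 2)) (s : ℕ) :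
    ∀ (ℓ : ℕ) (t : Perm (Fin n)), t ∈ PB x ℓ → #t.support = s → 1 ≤ s → 8 * s ≤ n →
      ∃ u, ∃ ℓ' : ℕ, u ∈ PB x ℓ' ∧ 1 ≤ #u.support ∧ #u.support ^ 2 < 8 * n ∧ 8 * #u.support ≤ n ∧
        ((ℓ' : ℝ) + 2 * L) * Real.log (n / (6 * s)) ^ 2 ≤
          (ℓ + 2 * L) * Real.log (n / (6 * #u.support)) ^ 2 := by
  induction s using Nat.strong_induction_on with
  | _ s ih =>
    intro ℓ t ht hs h1 h8
    by_cases hsM : s ^ 2 < 8 * n
    · exact ⟨t, ℓ, ht, by omega, by rw [hs]; exact hsM, by omega, by rw [hs]⟩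
    · push Not at hsM
      obtain ⟨u, hu, hu1, hu2⟩ := step hk hε hg hL ht (by rw [hs]; exact h8)
        (by rw [hs]; exact hsM) hn
      rw [hs] at hu1 hu2
      have h34 : 4 * #u.support ≤ 3 * s := by
        have h1 : n * (4 * #u.support) ≤ n * (3 * s) := by nlinarith
        exact Nat.le_of_mul_le_mul_left h1 (by omega)
      have hu0 : 1 ≤ #u.support := by
        by_contra hcon
        have : #u.support = 0 := by omega
        rw [this] at hu1
        omega
      obtain ⟨v, ℓ', hv, hv1, hv2, hv3, hv4⟩ := ih _ (by omega) (4 * ℓ + 4 * L) u hu rfl hu0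
        (by omega)
      refine ⟨v, ℓ', hv, hv1, hv2, hv3, ?_⟩
      have hn0 : (0 : ℝ) < n := by exact_mod_cast hn
      have hs0 : (1 : ℝ) ≤ s := by exact_mod_cast h1
      have hu0' : (1 : ℝ) ≤ #u.support := by exact_mod_cast hu0
      have h8' : 8 * (s : ℝ) ≤ n := by exact_mod_cast h8
      have hu2' : (n : ℝ) * #u.support ≤ 6 * (s : ℝ) ^ 2 := by exact_mod_cast hu2
      -- the logarithm doubles
      have ha : 0 ≤ Real.log (n / (6 * s)) := by
        apply Real.log_nonneg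
        rw [le_div_iff₀ (by linarith)]
        linarith
      have hlog : 2 * Real.log (n / (6 * s)) ≤ Real.log (n / (6 * #u.support)) := by
        have e1 : 2 * Real.log (n / (6 * s)) = Real.log ((n / (6 * s)) ^ 2) := by
          rw [Real.log_pow]; norm_num
        rw [e1]
        apply Real.log_le_log (by positivity)
        rw [div_pow, div_le_div_iff₀ (by positivity) (by positivity)]
        nlinarith
      have h4 : 4 * Real.log (n / (6 * s)) ^ 2 ≤ Real.log (n / (6 * #u.support)) ^ 2 := by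
        have := pow_le_pow_left₀ (by positivity) hlog 2
        nlinarith
      have h5 : 4 * (((ℓ' : ℝ) + 2 * L) * Real.log (n / (6 * s)) ^ 2) ≤
          4 * ((ℓ + 2 * L) * Real.log (n / (6 * #v.support)) ^ 2) := by
        have e1 : 0 ≤ (ℓ' : ℝ) + 2 * L := by positivity
        have e2 := mul_le_mul_of_nonneg_left h4 e1
        have e3 : (((4 * ℓ + 4 * L : ℕ) : ℝ) + 2 * L) * Real.log (n / (6 * #v.support)) ^ 2 ≤
            (4 * ((ℓ : ℝ) + 2 * L)) * Real.log (n / (6 * #v.support)) ^ 2 := by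
          apply mul_le_mul_of_nonneg_right _ (sq_nonneg _)
          push_cast
          have : (0 : ℝ) ≤ L := Nat.cast_nonneg _
          linarith
        linarith
      linarith

/-- every 3-cycle is a short word -/
theorem three {n k : ℕ} {x : Fin k → alternatingGroup (Fin n)} (hk : 1 ≤ k) {ε : ℝ} (hε : ε ≤ 2)
    (hg : ∀ r ≤ 3, TGap x ε r) {L ℓ : ℕ} (hn : 100000 ≤ n)
    (hL : (1 - ε / 2) ^ L * (n : ℝ) ^ 2 ≤ 1 / (16 * (n : ℝ) ^ 2))
    (hL3 : (1 - ε / 2) ^ L * ((n : ℝ) ^ 3) ^ 2 < 1)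
    {t : Perm (Fin n)} (ht : t ∈ PB x ℓ) (ht1 : t ≠ 1) (h8 : 8 * #t.support ≤ n) :
    ∀ σ : Perm (Fin n), σ.IsThreeCycle →
      ∃ D : ℕ, (D : ℝ) ≤ 300 * (Real.log n) ^ 2 * (ℓ + 2 * L) ∧ σ ∈ PB x D := by
  have hg2 := hg 2 (by norm_num)
  have hs2 : 2 ≤ #t.support := Perm.two_le_card_support_of_ne_one ht1
  obtain ⟨u, ℓ', hu, hu1, hu2, hu3, hu4⟩ := descend hk hε hg2 (by omega) hL _ ℓ t ht rfl
    (by omega) h8
  have hn' : (100000 : ℝ) ≤ n := by exact_mod_cast hn
  have hn0 : (0 : ℝ) < n := by linarith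
  -- the bound after the descent
  have hb : ((ℓ' : ℝ) + 2 * L) ≤ 16 * (Real.log n) ^ 2 * (ℓ + 2 * L) := by
    have hs' : (2 : ℝ) ≤ #t.support := by exact_mod_cast hs2
    have h8' : 8 * (#t.support : ℝ) ≤ n := by exact_mod_cast h8
    have hu1' : (1 : ℝ) ≤ #u.support := by exact_mod_cast hu1
    have hu3' : 8 * (#u.support : ℝ) ≤ n := by exact_mod_cast hu3
    have e1 : 1 / 4 ≤ Real.log (n / (6 * #t.support)) := by
      have h1 : (4 : ℝ) / 3 ≤ n / (6 * #t.support) := by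
        rw [le_div_iff₀ (by linarith)]
        linarith
      have h2 : Real.log (4 / 3) ≤ Real.log (n / (6 * #t.support)) :=
        Real.log_le_log (by norm_num) h1
      have h3 : 1 - ((4 : ℝ) / 3)⁻¹ ≤ Real.log (4 / 3) := Real.one_sub_inv_le_log_of_pos (by norm_num)
      norm_num at h3
      linarith
    have e2 : Real.log (n / (6 * #u.support)) ≤ Real.log n := by
      apply Real.log_le_log (by positivity)
      rw [div_le_iff₀ (by linarith)]
      nlinarith
    have e3 : 0 ≤ Real.log (n / (6 * #u.support)) := by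
      apply Real.log_nonneg
      rw [le_div_iff₀ (by linarith)]
      linarith
    have e4 : (1 / 4 : ℝ) ^ 2 ≤ Real.log (n / (6 * #t.support)) ^ 2 :=
      pow_le_pow_left₀ (by norm_num) e1 2
    have e5 : Real.log (n / (6 * #u.support)) ^ 2 ≤ Real.log n ^ 2 := pow_le_pow_left₀ e3 e2 2
    have e6 : 0 ≤ (ℓ' : ℝ) + 2 * L := by positivity
    have e7 : 0 ≤ (ℓ : ℝ) + 2 * L := by positivity
    have e8 := mul_le_mul_of_nonneg_left e4 e6
    have e9 := mul_le_mul_of_nonneg_left e5 e7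
    linarith
  -- a 3-cycle
  obtain ⟨c, ℓ2, hc, hc3, hℓ2⟩ : ∃ c, ∃ ℓ2 : ℕ, c ∈ PB x ℓ2 ∧ c.IsThreeCycle ∧
      ℓ2 + 2 * L ≤ 16 * (ℓ' + 2 * L) := by
    by_cases h1 : 2 * #u.support ^ 2 < n
    · have hu_ne : u ≠ 1 := by
        rintro rfl
        rw [Perm.support_one, card_empty] at hu1
        omega
      obtain ⟨c, hc, hc3⟩ := case3 hk hε hg2 (by omega) hL hu hu_ne h1
      exact ⟨c, _, hc, hc3, by omega⟩
    · push Not at h1
      obtain ⟨v, hv, hv1, hv2⟩ := case2 hk hε hg2 hn hL hu h1 hu2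
      have h3 : 2 * #v.support ^ 2 < n := by
        have : #v.support ^ 2 ≤ 119 ^ 2 := Nat.pow_le_pow_left (by omega) 2
        omega
      obtain ⟨c, hc, hc3⟩ := case3 hk hε hg2 (by omega) hL hv hv1 h3
      exact ⟨c, _, hc, hc3, by omega⟩
  intro σ hσ
  have hT : Trans x 3 L := trans_of_gap hk hε (by omega) hg hL3
  obtain ⟨π, hπ⟩ := isConj_iff.1 (Perm.isConj_iff_cycleType_eq.2 (hc3.cycleType.trans hσ.cycleType.symm))
  refine ⟨ℓ2 + 2 * L, ?_, ?_⟩
  · have h1 : ((ℓ2 + 2 * L : ℕ) : ℝ) ≤ 16 * (ℓ' + 2 * L) := by exact_mod_cast hℓ2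
    have h2 : 0 ≤ (Real.log n) ^ 2 * ((ℓ : ℝ) + 2 * L) := by positivity
    linarith
  · rw [← hπ]
    exact conj_mem hT hc (by rw [hc3.card_support]) π

end

end LG291
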