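import Pool.Agent.U291.LG.Cmp
import Pool.Agent.U291.LG.T
import Pool.Agent.U516.RD.Main

/-!
Random generators of `A_n` together with one more element of small support.
-/

namespace LG291
open RC14 RD516 Finset Filter Topology

noncomputable section

/-- the deterministic statement: a gap up to level `r`, and one more generator of small support -/
theorem one {n k : ℕ} {x : Fin k → Alt n} (hk : 1 ≤ k) {ε : ℝ} (hε1 : ε ≤ 1)
    {r L : ℕ} (hr3 : 3 ≤ r) (hr : r + 3 ≤ n) (hn : 100000 ≤ n)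
    (hlow : ∀ f ∈ lowLevel n r, ∑ g, f g = 0 → ∑ g, f g * walk x f g ≤ (1 - ε) * ∑ g, f g ^ 2)
    (hgap : ∀ s ≤ r, TGap x ε s)
    (hL : (1 - k / (k + 1) * ε / 2) ^ L * (n : ℝ) ^ 2 ≤ 1 / (16 * (n : ℝ) ^ 2))
    (hL3 : (1 - k / (k + 1) * ε / 2) ^ L * ((n : ℝ) ^ 3) ^ 2 < 1)
    {X : ℝ} (hX1 : 1 ≤ X) (hlog : Real.log n ≤ X) (hLX : (L : ℝ) ≤ X) (hrX : (n : ℝ) ≤ X * (r + 1))
    {ε' : ℝ} (hε' : 0 < ε') (hε'1 : ε' ≤ k / (k + 1) * ε)
    (hX : ε' * (3 / 2 * (k + 1) * 810000 * X ^ 7) ≤ 1)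
    (t : Alt n) (ht1 : t ≠ 1) (ht : 8 * #(t : Equiv.Perm (Fin n)).support ≤ n) :
    Expanding ε' (Fin.cons t x : Fin (k + 1) → Alt n) := by
  set y : Fin (k + 1) → Alt n := Fin.cons t x with hy
  have hk' : (0 : ℝ) < k := by exact_mod_cast hk
  have hn' : (100000 : ℝ) ≤ n := by exact_mod_cast hn
  have hfrac : (k : ℝ) / (k + 1) ≤ 1 := by
    rw [div_le_one (by positivity)]
    linarith
  have hlog1 : 1 ≤ Real.log n := by
    rw [Real.le_log_iff_exp_le (by linarith)]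
    have := Real.exp_one_lt_d9
    linarith
  have hε0 : 0 ≤ ε := by
    by_contra hcon
    have h1 : (k : ℝ) / (k + 1) * ε ≤ 0 :=
      mul_nonpos_of_nonneg_of_nonpos (by positivity) (by linarith)
    linarith
  have hε2 : (k : ℝ) / (k + 1) * ε ≤ 2 := by nlinarith
  have htP : (t : Equiv.Perm (Fin n)) ∈ PB y 1 := by
    have h1 := PB.gen (x := y) 0
    rwa [hy, Fin.cons_zero] at h1
  have h3 := three (x := y) (by omega) hε2 (fun s hs => tgap_cons hk t (hgap s (by omega)))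
    (L := L) (ℓ := 1) hn hL hL3 htP (fun e => ht1 (Subtype.ext e)) ht
  set B : ℝ := 300 * Real.log n ^ 2 * ((1 : ℕ) + 2 * L) with hB
  set D : ℕ := ⌊B⌋₊ with hD
  have hL0 : (0 : ℝ) ≤ L := Nat.cast_nonneg L
  have hB1 : 1 ≤ B := by
    rw [hB]
    push_cast
    nlinarith [one_le_pow₀ hlog1 (n := 2)]
  have hD1 : 1 ≤ D := by
    rw [hD]
    exact Nat.le_floor (by exact_mod_cast hB1)
  have hcyc : ∀ h : AG n, (h : Equiv.Perm (Fin n)).IsThreeCycle →
      (h : Equiv.Perm (Fin n)) ∈ PB y D := by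
    intro h hh
    obtain ⟨D', hD', hm⟩ := h3 _ hh
    exact PB.mono (Nat.le_floor hD') hm
  have hDX : (D : ℝ) ≤ 900 * X ^ 3 := by
    have h1 : (D : ℝ) ≤ B := Nat.floor_le (by linarith)
    refine h1.trans ?_
    rw [hB]
    push_cast
    have h2 : Real.log n ^ 2 ≤ X ^ 2 := pow_le_pow_left₀ (by linarith) hlog 2
    calc 300 * Real.log n ^ 2 * (1 + 2 * (L : ℝ)) ≤ 300 * X ^ 2 * (3 * X) := by
          apply mul_le_mul (by linarith) (by linarith) (by positivity) (by positivity)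
      _ = 900 * X ^ 3 := by ring
  refine ⟨generate hcyc, fun f hf => ?_⟩
  refine gap_all (by omega) hr hD1 hcyc ?_ ?_ f hf
  · have h1 : (D : ℝ) ^ 2 ≤ 810000 * X ^ 6 := by
      calc (D : ℝ) ^ 2 ≤ (900 * X ^ 3) ^ 2 := pow_le_pow_left₀ (Nat.cast_nonneg D) hDX 2
        _ = 810000 * X ^ 6 := by ring
    push_cast
    have hn2 : (0 : ℝ) ≤ (n : ℝ) - 2 := by linarith
    calc ε' * (3 / 2 * ((n : ℝ) - 2) * (k + 1) * (D : ℝ) ^ 2)
        ≤ ε' * (3 / 2 * (X * (r + 1)) * (k + 1) * (810000 * X ^ 6)) := by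
          gcongr
          linarith
      _ = (ε' * (3 / 2 * (k + 1) * 810000 * X ^ 7)) * (r + 1) := by ring
      _ ≤ 1 * (r + 1) := by gcongr
      _ = r + 1 := one_mul _
  · intro f hf hf0
    have h1 := low_cons hk t (hlow f hf hf0)
    refine h1.trans ?_
    have h2 : 0 ≤ ∑ g, f g ^ 2 := sum_nonneg fun g _ => sq_nonneg _
    gcongr

/-- any family containing `x` in which some short word has small support -/
theorem more {n k : ℕ} {x : Fin k → Alt n} {ε' : ℝ} (hε' : 0 ≤ ε')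
    (hx : ∀ t : Alt n, t ≠ 1 → 8 * #(t : Equiv.Perm (Fin n)).support ≤ n →
      Expanding ε' (Fin.cons t x : Fin (k + 1) → Alt n))
    {m ℓ : ℕ} (hkm : 1 ≤ k + m) {u : Fin m → Alt n} {g : Alt n}
    (hg : (g : Equiv.Perm (Fin n)) ∈ PB (Fin.append x u) ℓ)
    (hg1 : g ≠ 1) (h8 : 8 * #(g : Equiv.Perm (Fin n)).support ≤ n) :
    Expanding (ε' / (2 * (m + 1) * (ℓ : ℝ) ^ 2)) (Fin.append x u) := by
  set y : Fin (k + m) → Alt n := Fin.append x u with hy
  have hℓ : 1 ≤ ℓ := by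
    rcases Nat.eq_zero_or_pos ℓ with h0 | h0
    · exfalso
      rw [h0] at hg
      obtain ⟨w, h1, -, h3⟩ := hg
      have : w = [] := List.length_eq_zero_iff.1 (Nat.le_zero.1 h1)
      rw [this] at h3
      exact hg1 (Subtype.ext h3.symm)
    · exact h0
  have hℓ' : (1 : ℝ) ≤ ℓ := by exact_mod_cast hℓ
  obtain ⟨hgen, hgap⟩ := hx g hg1 h8
  refine ⟨?_, fun f hf => ?_⟩
  · rw [eq_top_iff, ← hgen, Subgroup.closure_le]
    rintro _ ⟨i, rfl⟩
    refine Fin.cases ?_ (fun j => ?_) i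
    · rw [Fin.cons_zero]
      obtain ⟨w, -, h2, h3⟩ := hg
      have h4 : w.prod = g := Subtype.ext h3
      rw [← h4]
      refine Subgroup.list_prod_mem _ fun z hz => ?_
      obtain ⟨i, hi | hi⟩ := h2 z hz
      · rw [hi]
        exact Subgroup.subset_closure ⟨i, rfl⟩
      · rw [hi]
        exact Subgroup.inv_mem _ (Subgroup.subset_closure ⟨i, rfl⟩)
    · rw [Fin.cons_succ]
      exact Subgroup.subset_closure ⟨Fin.castAdd m j, by rw [hy, Fin.append_left]⟩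
  · have h1 := hgap f hf
    have e1 := energy (by omega : 1 ≤ k + 1) (Fin.cons g x : Fin (k + 1) → AG n)
      (WithLp.toLp 2 f)
    have e2 := energy hkm y (WithLp.toLp 2 f)
    rw [inner_PW, norm_FV] at e1 e2
    rw [Fin.sum_univ_succ] at e1
    simp only [Fin.cons_succ, Fin.cons_zero] at e1
    set F : FV n := WithLp.toLp 2 f with hF
    set N : ℝ := ∑ g, f g ^ 2 with hN
    have hN0 : 0 ≤ N := sum_nonneg fun g _ => sq_nonneg _
    set S : ℝ := ∑ i, ‖reg n (y i) F - F‖ ^ 2 with hS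
    have hS0 : 0 ≤ S := sum_nonneg fun i _ => by positivity
    -- the letters of `x`
    have h2 : ∑ i, ‖reg n (x i) F - F‖ ^ 2 ≤ S := by
      rw [hS, Fin.sum_univ_add]
      have h3 : ∀ i : Fin k, y (Fin.castAdd m i) = x i := fun i => by rw [hy, Fin.append_left]
      simp only [h3]
      have h4 : 0 ≤ ∑ i : Fin m, ‖reg n (y (Fin.natAdd k i)) F - F‖ ^ 2 :=
        sum_nonneg fun i _ => by positivity
      linarith
    -- the word
    have h3 : ‖reg n g F - F‖ ^ 2 ≤ (ℓ : ℝ) ^ 2 * S := by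
      have h4 : ∀ i, ‖reg n (y i) F - F‖ ≤ Real.sqrt S := by
        intro i
        apply Real.le_sqrt_of_sq_le
        rw [hS]
        exact single_le_sum (f := fun i => ‖reg n (y i) F - F‖ ^ 2) (fun i _ => by positivity)
          (mem_univ i)
      have h5 := word_PB y F (Real.sqrt_nonneg _) h4 hg
      calc ‖reg n g F - F‖ ^ 2 ≤ (ℓ * Real.sqrt S) ^ 2 := pow_le_pow_left₀ (norm_nonneg _) h5 2
        _ = (ℓ : ℝ) ^ 2 * S := by rw [mul_pow, Real.sq_sqrt hS0]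
    have e1' : N - ∑ h, f h * walk (Fin.cons g x : Fin (k + 1) → Alt n) f h =
        (‖reg n g F - F‖ ^ 2 + ∑ i, ‖reg n (x i) F - F‖ ^ 2) / (2 * ((k + 1 : ℕ) : ℝ)) := e1
    have e2' : N - ∑ h, f h * walk y f h = S / (2 * ((k + m : ℕ) : ℝ)) := e2
    have h4 : ε' * N ≤ (‖reg n g F - F‖ ^ 2 + ∑ i, ‖reg n (x i) F - F‖ ^ 2) /
        (2 * ((k + 1 : ℕ) : ℝ)) := by
      rw [← e1']
      linarith
    have hk1 : (0 : ℝ) < 2 * ((k + 1 : ℕ) : ℝ) := by positivity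
    rw [le_div_iff₀ hk1] at h4
    have hl2 : (1 : ℝ) ≤ (ℓ : ℝ) ^ 2 := one_le_pow₀ hℓ'
    have h5 : ε' * N * (2 * ((k + 1 : ℕ) : ℝ)) ≤ 2 * (ℓ : ℝ) ^ 2 * S := by nlinarith
    have hkm' : (0 : ℝ) < 2 * ((k + m : ℕ) : ℝ) := by
      have : (0 : ℝ) < ((k + m : ℕ) : ℝ) := by exact_mod_cast hkm
      positivity
    have h6 : ε' / (2 * (m + 1) * (ℓ : ℝ) ^ 2) * N ≤ S / (2 * ((k + m : ℕ) : ℝ)) := by
      rw [le_div_iff₀ hkm', div_mul_eq_mul_div, div_mul_eq_mul_div, div_le_iff₀ (by positivity)]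
      have h7 : ((k + m : ℕ) : ℝ) ≤ ((k + 1 : ℕ) : ℝ) * (m + 1) := by
        push_cast
        have : (0 : ℝ) ≤ k := Nat.cast_nonneg k
        have : (0 : ℝ) ≤ m := Nat.cast_nonneg m
        nlinarith
      calc ε' * N * (2 * ((k + m : ℕ) : ℝ)) ≤ ε' * N * (2 * (((k + 1 : ℕ) : ℝ) * (m + 1))) := by
            gcongr
        _ = ε' * N * (2 * ((k + 1 : ℕ) : ℝ)) * (m + 1) := by ring
        _ ≤ 2 * (ℓ : ℝ) ^ 2 * S * (m + 1) := by gcongr
        _ = S * (2 * (m + 1) * (ℓ : ℝ) ^ 2) := by ring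
    rw [← e2'] at h6
    linarith

end

end LG291
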