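import Pool.Agent.U291.LG.Avg

/-!
Representations of the alternating group: the projections on the vectors fixed by the even
permutations supported in a set, and the traces of these projections.
-/

namespace LG291
open Finset Equiv
open scoped InnerProductSpace

noncomputable section

variable {n : ℕ} {V : Type*} [NormedAddCommGroup V] [InnerProductSpace ℝ V]
variable (σ : AG n →* Module.End ℝ V)

lemma aps (g : Perm (Fin n)) (a : Fin n) : g (g⁻¹ a) = a := by simp

lemma ipa (g : Perm (Fin n)) (a : Fin n) : g⁻¹ (g a) = a := by simp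

/-- the average over the even permutations supported in `A` -/
def E (A : Finset (Fin n)) : Module.End ℝ V := (#(H A) : ℝ)⁻¹ • ∑ h ∈ H A, σ h

/-- the average over a coset -/
def C (B : Finset (Fin n)) (y z : Fin n) : Module.End ℝ V :=
  (#(H (B.erase y)) : ℝ)⁻¹ • ∑ g ∈ (H B).filter (fun g : AG n => (g : Perm (Fin n)) y = z), σ g

lemma cardH_ne (A : Finset (Fin n)) : (#(H A) : ℝ) ≠ 0 := by
  exact_mod_cast (card_H_pos A).ne'

lemma mul_E {A : Finset (Fin n)} {g : AG n} (hg : g ∈ H A) : σ g * E σ A = E σ A := by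
  unfold E
  rw [mul_smul_comm, mul_sum]
  congr 1
  refine sum_bij (fun h _ => g * h) (fun h hh => mul_mem_H hg hh)
    (fun _ _ _ _ h => mul_left_cancel h) (fun b hb => ⟨g⁻¹ * b, mul_mem_H (inv_mem_H hg) hb, by group⟩)
    (fun h _ => by rw [map_mul])

lemma E_mul {A : Finset (Fin n)} {g : AG n} (hg : g ∈ H A) : E σ A * σ g = E σ A := by
  unfold E
  rw [smul_mul_assoc, sum_mul]
  congr 1
  refine sum_bij (fun h _ => h * g) (fun h hh => mul_mem_H hh hg)
    (fun _ _ _ _ h => mul_right_cancel h) (fun b hb => ⟨b * g⁻¹, mul_mem_H hb (inv_mem_H hg), by group⟩)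
    (fun h _ => by rw [map_mul])

lemma E_mul_E {A B : Finset (Fin n)} (h : A ⊆ B) : E σ A * E σ B = E σ B := by
  have h1 : ∀ g ∈ H A, σ g * E σ B = E σ B := fun g hg => mul_E σ (H_mono h hg)
  conv_lhs => rw [show E σ A = (#(H A) : ℝ)⁻¹ • ∑ h ∈ H A, σ h from rfl]
  rw [smul_mul_assoc, sum_mul, sum_congr rfl h1, sum_const, ← Nat.cast_smul_eq_nsmul ℝ, smul_smul,
    inv_mul_cancel₀ (cardH_ne A), one_smul]

lemma E_mul_E' {A B : Finset (Fin n)} (h : A ⊆ B) : E σ B * E σ A = E σ B := by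
  have h1 : ∀ g ∈ H A, E σ B * σ g = E σ B := fun g hg => E_mul σ (H_mono h hg)
  conv_lhs => rw [show E σ A = (#(H A) : ℝ)⁻¹ • ∑ h ∈ H A, σ h from rfl]
  rw [mul_smul_comm, mul_sum, sum_congr rfl h1, sum_const, ← Nat.cast_smul_eq_nsmul ℝ, smul_smul,
    inv_mul_cancel₀ (cardH_ne A), one_smul]

lemma C_self {B : Finset (Fin n)} {y : Fin n} : C σ B y y = E σ (B.erase y) := by
  unfold C E
  congr 2
  ext g
  rw [mem_filter, mem_H, mem_H]
  constructor
  · rintro ⟨h1, h2⟩ a ha
    by_cases hay : a = y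
    · rw [hay, h2]
    · exact h1 a fun h => ha (mem_erase.2 ⟨hay, h⟩)
  · intro h
    exact ⟨fun a ha => h a fun h' => ha (mem_of_mem_erase h'), h y (by simp)⟩

lemma mul_C {B : Finset (Fin n)} {y z : Fin n} {h : AG n} (hh : h ∈ H B) :
    σ h * C σ B y z = C σ B y ((h : Perm (Fin n)) z) := by
  unfold C
  rw [mul_smul_comm, mul_sum]
  congr 1
  refine sum_bij (fun g _ => h * g) ?_ (fun _ _ _ _ h => mul_left_cancel h) ?_
    (fun g _ => by rw [map_mul])
  · intro g hg
    rw [mem_filter] at hg ⊢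
    exact ⟨mul_mem_H hh hg.1, by rw [Subgroup.coe_mul, Perm.mul_apply, hg.2]⟩
  · intro b hb
    rw [mem_filter] at hb
    refine ⟨h⁻¹ * b, ?_, by group⟩
    rw [mem_filter]
    refine ⟨mul_mem_H (inv_mem_H hh) hb.1, ?_⟩
    rw [Subgroup.coe_mul, Perm.mul_apply, hb.2, Subgroup.coe_inv]
    simp

/-- averaging the coset operators over a subset containing the point -/
lemma E_C {B D : Finset (Fin n)} (hD : D ⊆ B) (hD3 : 3 ≤ #D) {y z : Fin n} (hz : z ∈ D) :
    E σ D * C σ B y z = (#D : ℝ)⁻¹ • ∑ z' ∈ D, C σ B y z' := by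
  have h1 : ∀ h ∈ H D, σ h * C σ B y z = C σ B y ((h : Perm (Fin n)) z) :=
    fun h hh => mul_C σ (H_mono hD hh)
  conv_lhs => rw [show E σ D = (#(H D) : ℝ)⁻¹ • ∑ h ∈ H D, σ h from rfl]
  rw [smul_mul_assoc, sum_mul, sum_congr rfl h1, sum_orbit hD3 hz, smul_smul]
  congr 1
  have := cardH_ne D
  field_simp

/-- **the relation between two projections** -/
theorem key {B : Finset (Fin n)} (hB : 4 ≤ #B) {x y : Fin n} (hx : x ∈ B) (hy : y ∈ B)
    (hxy : x ≠ y) :
    E σ (B.erase y) * E σ (B.erase x) * E σ (B.erase y) =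
      (1 / ((#B : ℝ) - 1) ^ 2) • E σ (B.erase y) +
      (1 - 1 / ((#B : ℝ) - 1) ^ 2) • E σ B := by
  classical
  set b : ℝ := (#B : ℝ) with hb
  have hb4 : (4 : ℝ) ≤ b := by rw [hb]; exact_mod_cast hB
  have hcx : #(B.erase x) = #B - 1 := card_erase_of_mem hx
  have hcy : #(B.erase y) = #B - 1 := card_erase_of_mem hy
  have hcx' : (#(B.erase x) : ℝ) = b - 1 := by rw [hcx, Nat.cast_sub (by omega)]; simp [hb]
  have hcy' : (#(B.erase y) : ℝ) = b - 1 := by rw [hcy, Nat.cast_sub (by omega)]; simp [hb]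
  have hyx : y ∈ B.erase x := mem_erase.2 ⟨hxy.symm, hy⟩
  -- `R P`
  have h1 : E σ (B.erase x) * E σ (B.erase y) = (b - 1)⁻¹ • ∑ z ∈ B.erase x, C σ B y z := by
    rw [← C_self σ (B := B) (y := y), E_C σ (erase_subset x B) (by omega) hyx, hcx']
  -- `E B P`
  have h2 : E σ B = b⁻¹ • ∑ z ∈ B, C σ B y z := by
    have := E_C σ (subset_refl B) (by omega) hy (y := y)
    rw [C_self, E_mul_E' σ (erase_subset y B)] at this
    exact this
  have h3 : ∑ z ∈ B.erase y, C σ B y z = b • E σ B - E σ (B.erase y) := by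
    rw [h2, smul_smul, mul_inv_cancel₀ (by linarith), one_smul, ← add_sum_erase B _ hy, C_self]
    abel
  have h4 : ∀ z ∈ (B.erase x).erase y, E σ (B.erase y) * C σ B y z =
      (b - 1)⁻¹ • (b • E σ B - E σ (B.erase y)) := by
    intro z hz
    rw [mem_erase, mem_erase] at hz
    rw [E_C σ (erase_subset y B) (by omega) (mem_erase.2 ⟨hz.1, hz.2.2⟩), hcy', h3]
  have hcc : (#((B.erase x).erase y) : ℝ) = b - 2 := by
    rw [card_erase_of_mem hyx, hcx, Nat.cast_sub (by omega), Nat.cast_sub (by omega)]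
    simp [hb]
    ring
  rw [mul_assoc, h1, mul_smul_comm, mul_sum, ← add_sum_erase _ _ hyx, C_self,
    E_mul_E σ (subset_refl _), sum_congr rfl h4, sum_const, ← Nat.cast_smul_eq_nsmul ℝ, hcc]
  have hb1 : b - 1 ≠ 0 := by linarith
  match_scalars <;> field_simp <;> ring

/-- traces of averages -/
def D (A : Finset (Fin n)) : ℝ := LinearMap.trace ℝ V (E σ A)

/-- conjugation -/
lemma conj_E {A : Finset (Fin n)} (g : AG n) :
    σ g * E σ A * σ g⁻¹ = E σ (A.map (g : Perm (Fin n)).toEmbedding) := by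
  unfold E
  have hc : #(H (A.map (g : Perm (Fin n)).toEmbedding)) = #(H A) := by
    symm
    refine card_bij (fun h _ => g * h * g⁻¹) ?_ ?_ ?_
    · intro h hh
      rw [mem_H] at hh ⊢
      intro a ha
      rw [Subgroup.coe_mul, Subgroup.coe_mul, Subgroup.coe_inv, Perm.mul_apply, Perm.mul_apply,
        hh, aps]
      intro hcon
      apply ha
      rw [mem_map]
      exact ⟨_, hcon, by simp⟩
    · intro a _ b _ hab
      exact mul_left_cancel (mul_right_cancel hab)
    · intro b hb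
      refine ⟨g⁻¹ * b * g, ?_, by group⟩
      rw [mem_H] at hb ⊢
      intro a ha
      rw [Subgroup.coe_mul, Subgroup.coe_mul, Subgroup.coe_inv, Perm.mul_apply, Perm.mul_apply,
        hb, ipa]
      intro hcon
      rw [mem_map] at hcon
      obtain ⟨c, hc, hc2⟩ := hcon
      apply ha
      have : c = a := (g : Perm (Fin n)).injective hc2
      exact this ▸ hc
  rw [mul_smul_comm, smul_mul_assoc, mul_sum, sum_mul, hc]
  congr 1
  refine sum_bij (fun h _ => g * h * g⁻¹) ?_ ?_ ?_ ?_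
  · intro h hh
    rw [mem_H] at hh ⊢
    intro a ha
    rw [Subgroup.coe_mul, Subgroup.coe_mul, Subgroup.coe_inv, Perm.mul_apply, Perm.mul_apply,
      hh, aps]
    intro hcon
    apply ha
    rw [mem_map]
    exact ⟨_, hcon, by simp⟩
  · intro a _ b _ hab
    exact mul_left_cancel (mul_right_cancel hab)
  · intro b hb
    refine ⟨g⁻¹ * b * g, ?_, by group⟩
    rw [mem_H] at hb ⊢
    intro a ha
    rw [Subgroup.coe_mul, Subgroup.coe_mul, Subgroup.coe_inv, Perm.mul_apply, Perm.mul_apply,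
      hb, ipa]
    intro hcon
    rw [mem_map] at hcon
    obtain ⟨c, hc, hc2⟩ := hcon
    apply ha
    have : c = a := (g : Perm (Fin n)).injective hc2
    exact this ▸ hc
  · intro h hh
    rw [map_mul, map_mul]

/-- two sets of the same size at least two are conjugate by an even permutation -/
lemma exists_even {A B : Finset (Fin n)} (hA : 2 ≤ #A) (h : #A = #B) :
    ∃ g : AG n, A.map (g : Perm (Fin n)).toEmbedding = B := by
  classical
  obtain ⟨π, hπ⟩ : ∃ π : Perm (Fin n), A.map π.toEmbedding = B := by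
    have e : {x // x ∈ A} ≃ {x // x ∈ B} := Finset.equivOfCardEq h
    refine ⟨e.extendSubtype, ?_⟩
    ext z
    rw [mem_map]
    constructor
    · rintro ⟨a, ha, rfl⟩
      change e.extendSubtype a ∈ B
      rw [e.extendSubtype_apply_of_mem a ha]
      exact (e ⟨a, ha⟩).2
    · intro hz
      refine ⟨(e.symm ⟨z, hz⟩ : Fin n), (e.symm ⟨z, hz⟩).2, ?_⟩
      change e.extendSubtype _ = z
      rw [e.extendSubtype_apply_of_mem _ (e.symm ⟨z, hz⟩).2]
      simp
  rcases Int.units_eq_one_or (Perm.sign π) with hs | hs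
  · exact ⟨⟨π, by rw [Perm.mem_alternatingGroup]; exact hs⟩, hπ⟩
  · obtain ⟨a, ha, b, hb, hab⟩ := one_lt_card.1 (show 1 < #A by omega)
    refine ⟨⟨π * swap a b, ?_⟩, ?_⟩
    · rw [Perm.mem_alternatingGroup, Perm.sign_mul, hs, Perm.sign_swap hab]
      rfl
    · rw [← hπ]
      ext z
      rw [mem_map, mem_map]
      have hsw : ∀ c ∈ A, swap a b c ∈ A := by
        intro c hc
        rw [swap_apply_def]
        split_ifs
        · exact hb
        · exact ha
        · exact hc
      constructor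
      · rintro ⟨c, hc, rfl⟩
        exact ⟨swap a b c, hsw c hc, rfl⟩
      · rintro ⟨c, hc, rfl⟩
        refine ⟨swap a b c, hsw c hc, ?_⟩
        change (π * swap a b) (swap a b c) = π c
        rw [Perm.mul_apply, swap_apply_self]

lemma D_eq {A B : Finset (Fin n)} (hA : 2 ≤ #A) (h : #A = #B) : D σ A = D σ B := by
  obtain ⟨g, hg⟩ := exists_even hA h
  unfold D
  rw [← hg, ← conj_E, LinearMap.trace_mul_comm, ← mul_assoc, ← map_mul, inv_mul_cancel, map_one,
    one_mul]

end

end LG291
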