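import Pool.Agent.U291.LG.Lev
import Pool.Agent.H14R2.RC.Defs
import Pool.Agent.U516.RD.Words

/-!
The level inequality for functions on the alternating group, and the comparison of the random walk
with the three-cycles.
-/

namespace LG291
open Finset Equiv
open scoped InnerProductSpace

noncomputable section

variable {n : ℕ}

/-- real functions on the alternating group -/
abbrev FV (n : ℕ) := EuclideanSpace ℝ (AG n)

/-- the right regular representation `(reg u f)(g) = f(g u)` -/
def reg (n : ℕ) : AG n →* Module.End ℝ (FV n) where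
  toFun u :=
    { toFun := fun f => WithLp.toLp 2 fun g => f (g * u)
      map_add' := fun f f' => by ext g; simp
      map_smul' := fun c f => by ext g; simp }
  map_one' := by ext f g; simp
  map_mul' u v := by
    ext f g
    simp [mul_assoc]

@[simp] lemma reg_apply (u : AG n) (f : FV n) (g : AG n) : reg n u f g = f (g * u) := rfl

lemma inner_FV (f f' : FV n) : ⟪f, f'⟫_ℝ = ∑ g, f g * f' g := by
  rw [PiLp.inner_apply]
  exact sum_congr rfl fun g _ => by simp [mul_comm]

lemma norm_FV (f : FV n) : ‖f‖ ^ 2 = ∑ g, f g ^ 2 := by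
  rw [EuclideanSpace.norm_sq_eq]
  exact sum_congr rfl fun g _ => by rw [Real.norm_eq_abs, sq_abs]

lemma orth_reg : Orth (reg n) := by
  intro u f f'
  rw [inner_FV, inner_FV]
  exact Fintype.sum_equiv (Equiv.mulRight u) _ _ fun g => rfl

/-- the functions of level at most `r` as a subspace of the Euclidean space -/
def LE (n r : ℕ) : Submodule ℝ (FV n) :=
  (RC14.lowLevel n r).comap (WithLp.linearEquiv 2 ℝ (AG n → ℝ)).toLinearMap

lemma mem_LE {r : ℕ} {f : FV n} : f ∈ LE n r ↔ (fun g => f g) ∈ RC14.lowLevel n r := Iff.rfl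

/-- low level functions are preserved by right translations -/
lemma lowLevel_right {r : ℕ} (u : AG n) {f : AG n → ℝ} (hf : f ∈ RC14.lowLevel n r) :
    (fun g => f (g * u)) ∈ RC14.lowLevel n r := by
  unfold RC14.lowLevel at hf
  induction hf using Submodule.span_induction with
  | mem f hf =>
    obtain ⟨K, hK, h⟩ := hf
    refine Submodule.subset_span ⟨K, hK, fun a g ha => ?_⟩
    change f (a * g * u) = f (g * u)
    rw [mul_assoc]
    exact h a (g * u) ha
  | zero => exact (RC14.lowLevel n r).zero_mem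
  | add f f' _ _ h h' => exact (RC14.lowLevel n r).add_mem h h'
  | smul c f _ h => exact (RC14.lowLevel n r).smul_mem c h

lemma reg_LE {r : ℕ} (u : AG n) : ∀ f ∈ LE n r, reg n u f ∈ LE n r := fun _ hf =>
  lowLevel_right u hf

lemma reg_perp {r : ℕ} (u : AG n) : ∀ f ∈ (LE n r)ᗮ, reg n u f ∈ (LE n r)ᗮ := by
  intro f hf
  rw [Submodule.mem_orthogonal] at hf ⊢
  intro v hv
  rw [← real_inner_comm, adj orth_reg, real_inner_comm]
  exact hf _ (reg_LE u⁻¹ v hv)

/-- a function which is invariant under right multiplication by the pointwise stabiliser of `r` points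
has level at most `r` -/
lemma mem_low {r : ℕ} {A : Finset (Fin n)} (hA : #Aᶜ ≤ r) {f : AG n → ℝ}
    (hf : ∀ h ∈ H A, ∀ g, f (g * h) = f g) : f ∈ RC14.lowLevel n r := by
  classical
  -- `f g` depends only on the restriction of `g` to the complement of `A`
  have hdep : ∀ g g' : AG n, (∀ a, a ∉ A → (g : Perm (Fin n)) a = (g' : Perm (Fin n)) a) →
      f g' = f g := by
    intro g g' h
    have h1 : g⁻¹ * g' ∈ H A := by
      rw [mem_H]
      intro a ha
      rw [Subgroup.coe_mul, Perm.mul_apply, ← h a ha, Subgroup.coe_inv]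
      simp
    have h2 := hf _ h1 g
    rwa [mul_inv_cancel_left] at h2
  set K := {a : Fin n // a ∉ A} with hK
  have hsum : f = ∑ φ : K → Fin n, fun g : AG n =>
      if (fun a : K => (g : Perm (Fin n)) a) = φ then f g else 0 := by
    funext g
    rw [Finset.sum_apply, Finset.sum_ite_eq, if_pos (mem_univ _)]
  rw [hsum]
  refine Submodule.sum_mem _ fun φ _ => Submodule.subset_span ⟨univ.image φ, ?_, ?_⟩
  · refine card_image_le.trans ?_
    rw [card_univ]
    have : Fintype.card K = #Aᶜ := by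
      rw [Fintype.card_subtype]
      congr 1
      ext a
      simp
    omega
  · intro h g hh
    have h1 : ((fun a : K => ((h * g : AG n) : Perm (Fin n)) a) = φ) ↔
        ((fun a : K => (g : Perm (Fin n)) a) = φ) := by
      constructor
      · intro e
        funext a
        have e1 := congrFun e a
        simp only [Subgroup.coe_mul, Perm.mul_apply] at e1
        have e2 := hh (φ a) (mem_image_of_mem _ (mem_univ a))
        exact (h : Perm (Fin n)).injective (e1.trans e2.symm)
      · intro e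
        funext a
        have e1 : (g : Perm (Fin n)) a = φ a := congrFun e a
        simp only [Subgroup.coe_mul, Perm.mul_apply]
        rw [e1]
        exact hh (φ a) (mem_image_of_mem _ (mem_univ a))
    change (if (fun a : K => ((h * g : AG n) : Perm (Fin n)) a) = φ then f (h * g) else 0) =
      if (fun a : K => (g : Perm (Fin n)) a) = φ then f g else 0
    by_cases hc : (fun a : K => (g : Perm (Fin n)) a) = φ
    · rw [if_pos (h1.2 hc), if_pos hc]
      refine hdep g (h * g) fun a ha => ?_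
      have e1 : (g : Perm (Fin n)) a = φ ⟨a, ha⟩ := congrFun hc ⟨a, ha⟩
      have e2 : ((h * g : AG n) : Perm (Fin n)) a = φ ⟨a, ha⟩ := congrFun (h1.2 hc) ⟨a, ha⟩
      rw [e1, e2]
    · rw [if_neg (fun hcon => hc (h1.1 hcon)), if_neg hc]

lemma perp_zero {r : ℕ} {A : Finset (Fin n)} (hA : #A = n - r) :
    E (rs (reg n) (LE n r)ᗮ reg_perp) A = 0 := by
  ext1 w
  have h1 : ((E (rs (reg n) (LE n r)ᗮ reg_perp) A w : (LE n r)ᗮ) : FV n) = E (reg n) A w :=
    E_rs (reg n) _ reg_perp A w
  have h2 : E (reg n) A (w : FV n) ∈ LE n r := by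
    rw [mem_LE]
    refine mem_low (A := A) (by rw [card_compl, Fintype.card_fin]; omega) fun h hh g => ?_
    have h3 := LinearMap.congr_fun (mul_E (reg n) hh) (w : FV n)
    exact congrArg (fun f : FV n => f g) h3
  have h3 : E (reg n) A (w : FV n) ∈ (LE n r)ᗮ := by
    rw [← h1]
    exact Submodule.coe_mem _
  have h4 : E (reg n) A (w : FV n) = 0 := by
    rw [Submodule.mem_orthogonal] at h3
    exact inner_self_eq_zero.1 (h3 _ h2)
  ext1
  rw [h1, h4]
  rfl

lemma H_three {A : Finset (Fin n)} (hA : #A = 3) {h : AG n} (hh : h ∈ H A) :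
    h = 1 ∨ (h : Perm (Fin n)).IsThreeCycle := by
  by_cases hne : h = 1
  · exact Or.inl hne
  right
  have hne' : (h : Perm (Fin n)) ≠ 1 := fun e => hne (Subtype.ext e)
  rw [mem_H] at hh
  have hsub : (h : Perm (Fin n)).support ⊆ A := by
    intro a ha
    by_contra hcon
    exact (Perm.mem_support.1 ha) (hh a hcon)
  have h1 : #(h : Perm (Fin n)).support ≤ 3 := hA ▸ card_le_card hsub
  have h2 : 2 ≤ #(h : Perm (Fin n)).support := Perm.two_le_card_support_of_ne_one hne'
  have h5 : Perm.sign (h : Perm (Fin n)) = 1 := Perm.mem_alternatingGroup.1 h.2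
  have h3 : #(h : Perm (Fin n)).support ≠ 2 := by
    intro e
    have h4 := (Perm.card_support_eq_two.1 e).sign_eq
    rw [h5] at h4
    exact absurd h4 (by decide)
  exact card_support_eq_three_iff.1 (by omega)

lemma norm_sub (u : AG n) (f : FV n) : ‖reg n u f - f‖ ^ 2 = 2 * (‖f‖ ^ 2 - ⟪reg n u f, f⟫_ℝ) := by
  rw [norm_sub_sq_real]
  have h1 : ‖reg n u f‖ ^ 2 = ‖f‖ ^ 2 := by
    rw [← real_inner_self_eq_norm_sq, ← real_inner_self_eq_norm_sq]
    exact orth_reg u f f
  rw [h1]
  ring

/-- **the level inequality**: a function orthogonal to the functions of level at most `r` is moved by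
some three-cycle -/
theorem level {r : ℕ} (hr : r + 3 ≤ n) {w : FV n} (hw : w ∈ (LE n r)ᗮ) {B : ℝ} (hB0 : 0 ≤ B)
    (hB : ∀ h : AG n, (h : Perm (Fin n)).IsThreeCycle → ‖reg n h w - w‖ ^ 2 ≤ B) :
    4 / 3 * ((r + 1) / ((n : ℝ) - 2)) * ‖w‖ ^ 2 ≤ B := by
  have h1 := rep_level (Orth_rs (reg n) (LE n r)ᗮ reg_perp orth_reg) hr
    (fun A hA => perp_zero hA) ⟨w, hw⟩
  have hC : (0 : ℝ) < n.choose 3 := by
    exact_mod_cast Nat.choose_pos (by omega)
  have h2 : ∀ A ∈ powersetCard 3 (univ : Finset (Fin n)),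
      ‖w‖ ^ 2 - B / 2 ≤ ⟪(E (rs (reg n) (LE n r)ᗮ reg_perp) A ⟨w, hw⟩ : (LE n r)ᗮ),
        (⟨w, hw⟩ : (LE n r)ᗮ)⟫_ℝ := by
    intro A hA
    rw [mem_powersetCard] at hA
    rw [Submodule.coe_inner, E_rs]
    unfold E
    rw [LinearMap.smul_apply, LinearMap.sum_apply, real_inner_smul_left, sum_inner]
    have h3 : ∀ h ∈ H A, ‖w‖ ^ 2 - B / 2 ≤ ⟪reg n h w, w⟫_ℝ := by
      intro h hh
      have h4 : ‖reg n h w - w‖ ^ 2 ≤ B := by
        rcases H_three hA.2 hh with h5 | h5
        · rw [h5, map_one, Module.End.one_apply, sub_self, norm_zero]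
          simpa using hB0
        · exact hB h h5
      rw [norm_sub] at h4
      linarith
    have h4 := card_nsmul_le_sum (H A) (fun h => ⟪reg n h w, w⟫_ℝ) _ h3
    rw [nsmul_eq_mul] at h4
    have h5 : (0 : ℝ) < #(H A) := by exact_mod_cast card_H_pos A
    rw [← div_eq_inv_mul, le_div_iff₀ h5]
    linarith
  have h3 : (n.choose 3 : ℝ) * (‖w‖ ^ 2 - B / 2) ≤
      ⟪Q (rs (reg n) (LE n r)ᗮ reg_perp) ⟨w, hw⟩, (⟨w, hw⟩ : (LE n r)ᗮ)⟫_ℝ := by
    unfold Q
    rw [LinearMap.sum_apply, sum_inner]
    have h4 := card_nsmul_le_sum _ _ _ h2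
    rw [card_powersetCard, card_univ, Fintype.card_fin, nsmul_eq_mul] at h4
    exact h4
  have h4 := h3.trans h1
  rw [mul_assoc] at h4
  have h5 := le_of_mul_le_mul_left h4 hC
  have h6 : ‖(⟨w, hw⟩ : (LE n r)ᗮ)‖ = ‖w‖ := rfl
  rw [h6] at h5
  linarith

end

end LG291
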