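import Pool.Agent.U291.LG.Proj

/-!
The dimensions of the spaces of vectors fixed by the even permutations supported in a set.
-/

namespace LG291
open Finset Equiv
open scoped InnerProductSpace

noncomputable section

variable {n : ℕ} {V : Type*} [NormedAddCommGroup V] [InnerProductSpace ℝ V]
variable (σ : AG n →* Module.End ℝ V)

/-- the representation is orthogonal -/
def Orth (σ : AG n →* Module.End ℝ V) : Prop := ∀ g u v, ⟪σ g u, σ g v⟫_ℝ = ⟪u, v⟫_ℝ

variable {σ}

lemma adj (hσ : Orth σ) (g : AG n) (u v : V) : ⟪σ g u, v⟫_ℝ = ⟪u, σ g⁻¹ v⟫_ℝ := by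
  have h1 : σ g (σ g⁻¹ v) = v := by
    rw [← Module.End.mul_apply, ← map_mul, mul_inv_cancel, map_one, Module.End.one_apply]
  conv_lhs => rw [← h1]
  exact hσ g u _

lemma E_symm (hσ : Orth σ) (A : Finset (Fin n)) : (E σ A).IsSymmetric := by
  intro u v
  unfold E
  simp only [LinearMap.smul_apply, LinearMap.sum_apply, inner_smul_left, inner_smul_right,
    sum_inner, inner_sum]
  congr 1
  refine sum_bij (fun h _ => h⁻¹) (fun h hh => inv_mem_H hh) (fun _ _ _ _ h => inv_injective h)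
    (fun b hb => ⟨b⁻¹, inv_mem_H hb, inv_inv b⟩) (fun h _ => adj hσ h u v)

variable [FiniteDimensional ℝ V]

lemma trace_sq_nonneg {T : Module.End ℝ V} (hT : T.IsSymmetric) :
    0 ≤ LinearMap.trace ℝ V (T * T) := by
  rw [LinearMap.trace_eq_sum_inner (T * T) (stdOrthonormalBasis ℝ V)]
  refine sum_nonneg fun i _ => ?_
  rw [Module.End.mul_apply, ← hT]
  exact real_inner_self_nonneg

lemma D_nonneg (hσ : Orth σ) (A : Finset (Fin n)) : 0 ≤ D σ A := by
  have h := trace_sq_nonneg (E_symm hσ A)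
  rwa [E_mul_E σ (subset_refl A)] at h

lemma exists_fixed {A : Finset (Fin n)} (h : D σ A ≠ 0) : ∃ v : V, E σ A v ≠ 0 := by
  by_contra hcon
  push Not at hcon
  apply h
  unfold D
  have : E σ A = 0 := LinearMap.ext hcon
  rw [this, map_zero]

lemma trace_pair (A : Finset (Fin n)) (hA : 2 ≤ #A) {x y : Fin n} (hx : x ∉ A)
    (hy : y ∉ A) (hxy : x ≠ y) :
    LinearMap.trace ℝ V (E σ (insert x A) * E σ (insert y A)) =
      1 / ((#A : ℝ) + 1) ^ 2 * D σ (insert x A) +
      (1 - 1 / ((#A : ℝ) + 1) ^ 2) * D σ (insert x (insert y A)) := by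
  classical
  set B := insert x (insert y A) with hB
  have hcy : #(insert y A) = #A + 1 := card_insert_of_notMem hy
  have hxy' : x ∉ insert y A := by
    rw [mem_insert, not_or]
    exact ⟨hxy, hx⟩
  have hcB : #B = #A + 2 := by rw [hB, card_insert_of_notMem hxy', hcy]
  have e1 : B.erase x = insert y A := by rw [hB, erase_insert hxy']
  have e2 : B.erase y = insert x A := by
    rw [hB, Finset.insert_comm, erase_insert]
    rw [mem_insert, not_or]
    exact ⟨hxy.symm, hy⟩
  have hk := key σ (B := B) (by omega) (mem_insert_self x _)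
    (mem_insert_of_mem (mem_insert_self y A)) hxy
  rw [e1, e2, hcB] at hk
  have h1 := congrArg (LinearMap.trace ℝ V) hk
  rw [LinearMap.trace_mul_comm, ← mul_assoc, E_mul_E σ (subset_refl _), map_add, map_smul,
    map_smul, smul_eq_mul, smul_eq_mul] at h1
  rw [h1]
  push_cast
  have e3 : (#A : ℝ) + 2 - 1 = #A + 1 := by ring
  rw [e3]
  rfl

/-- a set with `j` elements -/
def st (n j : ℕ) : Finset (Fin n) := univ.filter fun i => (i : ℕ) < j

lemma card_st {j : ℕ} (h : j ≤ n) : #(st n j) = j := by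
  unfold st
  rw [Fin.card_filter_val_lt]
  omega

variable (σ) in
/-- the dimension of the fixed space of the even permutations supported in a set of size `j` -/
def d (j : ℕ) : ℝ := D σ (st n j)

lemma D_eq_d {A : Finset (Fin n)} (hA : 2 ≤ #A) : D σ A = d σ #A := by
  unfold d
  refine D_eq σ hA ?_
  rw [card_st]
  exact (card_le_univ A).trans (by simp)

/-- **the quadratic inequality for the dimensions** -/
theorem quad (hσ : Orth σ) {a : ℕ} (ha : 2 ≤ a) (han : a ≤ n) (h0 : 0 < d σ a) :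
    (((n : ℝ) - a) * d σ (a + 1)) ^ 2 ≤ d σ a * (((n : ℝ) - a) * d σ (a + 1) +
      ((n : ℝ) - a) * ((n : ℝ) - a - 1) * (1 / ((a : ℝ) + 1) ^ 2 * d σ (a + 1) +
        (1 - 1 / ((a : ℝ) + 1) ^ 2) * d σ (a + 2))) := by
  classical
  set A := st n a with hA
  have hcA : #A = a := card_st han
  have hcc : #Aᶜ = n - a := by rw [card_compl, Fintype.card_fin, hcA]
  have hcc' : (#Aᶜ : ℝ) = n - a := by rw [hcc, Nat.cast_sub han]
  have hD1 : ∀ x ∈ Aᶜ, D σ (insert x A) = d σ (a + 1) := by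
    intro x hx
    have hx' : x ∉ A := by rwa [mem_compl] at hx
    have hc : #(insert x A) = a + 1 := by rw [card_insert_of_notMem hx', hcA]
    rw [D_eq_d (by omega), hc]
  have hD2 : ∀ x ∈ Aᶜ, ∀ y ∈ Aᶜ, x ≠ y → D σ (insert x (insert y A)) = d σ (a + 2) := by
    intro x hx y hy hxy
    have hx' : x ∉ A := by rwa [mem_compl] at hx
    have hy' : y ∉ A := by rwa [mem_compl] at hy
    have hc : #(insert x (insert y A)) = a + 2 := by
      rw [card_insert_of_notMem, card_insert_of_notMem hy', hcA]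
      rw [mem_insert, not_or]
      exact ⟨hxy, hx'⟩
    rw [D_eq_d (by omega), hc]
  set S : Module.End ℝ V := ∑ x ∈ Aᶜ, E σ (insert x A) with hS
  have htS : LinearMap.trace ℝ V S = ((n : ℝ) - a) * d σ (a + 1) := by
    rw [hS, map_sum]
    change ∑ x ∈ Aᶜ, D σ (insert x A) = _
    rw [sum_congr rfl hD1, sum_const, nsmul_eq_mul, hcc']
  have htS2 : LinearMap.trace ℝ V (S * S) = ((n : ℝ) - a) * d σ (a + 1) +
      ((n : ℝ) - a) * ((n : ℝ) - a - 1) * (1 / ((a : ℝ) + 1) ^ 2 * d σ (a + 1) +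
        (1 - 1 / ((a : ℝ) + 1) ^ 2) * d σ (a + 2)) := by
    have h1 : ∀ x ∈ Aᶜ, LinearMap.trace ℝ V (E σ (insert x A) * S) = d σ (a + 1) +
        ((n : ℝ) - a - 1) * (1 / ((a : ℝ) + 1) ^ 2 * d σ (a + 1) +
        (1 - 1 / ((a : ℝ) + 1) ^ 2) * d σ (a + 2)) := by
      intro x hx
      rw [hS, mul_sum, map_sum, ← add_sum_erase _ _ hx]
      congr 1
      · rw [E_mul_E σ (subset_refl _)]
        exact hD1 x hx
      · have h2 : ∀ y ∈ Aᶜ.erase x, LinearMap.trace ℝ V (E σ (insert x A) * E σ (insert y A)) =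
            1 / ((a : ℝ) + 1) ^ 2 * d σ (a + 1) + (1 - 1 / ((a : ℝ) + 1) ^ 2) * d σ (a + 2) := by
          intro y hy
          rw [mem_erase] at hy
          have hx' : x ∉ A := by rwa [mem_compl] at hx
          have hy' : y ∉ A := by
            have := hy.2
            rwa [mem_compl] at this
          rw [trace_pair A (by omega) hx' hy' hy.1.symm, hD1 x hx, hD2 x hx y hy.2 hy.1.symm, hcA]
        rw [sum_congr rfl h2, sum_const, nsmul_eq_mul, card_erase_of_mem hx]
        have h3 : 1 ≤ #Aᶜ := card_pos.2 ⟨x, hx⟩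
        rw [Nat.cast_sub h3, hcc', Nat.cast_one]
    rw [hS, sum_mul, map_sum, ← hS, sum_congr rfl h1, sum_const, nsmul_eq_mul, hcc']
    ring
  have hSE : S * E σ A = S := by
    rw [hS, sum_mul]
    exact sum_congr rfl fun x _ => E_mul_E' σ (subset_insert x A)
  have hES : E σ A * S = S := by
    rw [hS, mul_sum]
    exact sum_congr rfl fun x _ => E_mul_E σ (subset_insert x A)
  have hSsymm : S.IsSymmetric := by
    intro u v
    rw [hS, LinearMap.sum_apply, LinearMap.sum_apply, sum_inner, inner_sum]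
    exact sum_congr rfl fun x _ => E_symm hσ _ u v
  set c : ℝ := LinearMap.trace ℝ V S / d σ a with hc
  have hTs : (S - c • E σ A).IsSymmetric := by
    intro u v
    rw [LinearMap.sub_apply, LinearMap.sub_apply, inner_sub_left, inner_sub_right, hSsymm,
      LinearMap.smul_apply, LinearMap.smul_apply, inner_smul_left, inner_smul_right, E_symm hσ]
    rfl
  have h1 := trace_sq_nonneg hTs
  have h2 : (S - c • E σ A) * (S - c • E σ A) = S * S - (2 * c) • S + c ^ 2 • E σ A := by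
    rw [sub_mul, mul_sub, mul_sub, mul_smul_comm, smul_mul_assoc, smul_mul_assoc, mul_smul_comm,
      hSE, hES, E_mul_E σ (subset_refl _)]
    module
  rw [h2, map_add, map_sub, map_smul, map_smul, smul_eq_mul, smul_eq_mul] at h1
  have h3 : LinearMap.trace ℝ V (E σ A) = d σ a := rfl
  rw [h3] at h1
  have h4 : c * d σ a = LinearMap.trace ℝ V S := by
    rw [hc, div_mul_cancel₀ _ h0.ne']
  rw [← htS2, ← htS]
  have h5 : 0 ≤ d σ a * (LinearMap.trace ℝ V (S * S) - 2 * c * LinearMap.trace ℝ V S +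
      c ^ 2 * d σ a) := mul_nonneg h0.le h1
  have h6 : d σ a * (LinearMap.trace ℝ V (S * S) - 2 * c * LinearMap.trace ℝ V S +
      c ^ 2 * d σ a) = d σ a * LinearMap.trace ℝ V (S * S) -
        2 * (c * d σ a) * LinearMap.trace ℝ V S + (c * d σ a) ^ 2 := by ring
  rw [h6, h4] at h5
  nlinarith

/-- the numerical recursion -/
theorem recur {n r : ℕ} (D : ℕ → ℝ) (hn : 3 ≤ n) (hr : r + 3 ≤ n)
    (hD0 : ∀ j, 0 ≤ D j) (h2 : 0 < D 2)
    (hq : ∀ a, 2 ≤ a → a ≤ n → 0 < D a →
      (((n : ℝ) - a) * D (a + 1)) ^ 2 ≤ D a * (((n : ℝ) - a) * D (a + 1) +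
      ((n : ℝ) - a) * ((n : ℝ) - a - 1) * (1 / ((a : ℝ) + 1) ^ 2 * D (a + 1) +
        (1 - 1 / ((a : ℝ) + 1) ^ 2) * D (a + 2))))
    (hu : 3 / 2 * ((n : ℝ) - 2) * (D 2 - D 3) < (r + 1) * D 2) :
    ∀ a, 2 ≤ a → a + r + 1 ≤ n → 0 < D a ∧ 0 < D (a + 1) ∧
      ((n : ℝ) - a) * (a + 1) * (D a - D (a + 1)) < (r + 1) * (a * D a) := by
  intro a ha
  induction a, ha using Nat.le_induction with
  | base =>
    intro h
    have hn2 : (0 : ℝ) < n - 2 := by
      have : (3 : ℝ) ≤ n := by exact_mod_cast hn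
      linarith
    refine ⟨h2, ?_, ?_⟩
    · by_contra hcon
      have h3 : D 3 ≤ 0 := not_lt.1 hcon
      have h5 : ((r : ℝ) + 1) ≤ n - 2 := by
        have : (r : ℝ) + 3 ≤ n := by exact_mod_cast hr
        linarith
      nlinarith
    · push_cast
      have : (D (2 + 1)) = D 3 := rfl
      rw [this]
      nlinarith
  | succ a ha ih =>
    intro h
    obtain ⟨i1, i2, i3⟩ := ih (by omega)
    have ha' : (2 : ℝ) ≤ a := by exact_mod_cast ha
    have hna : (a : ℝ) + 1 + r + 1 ≤ n := by exact_mod_cast h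
    have hr0 : (0 : ℝ) ≤ r := Nat.cast_nonneg r
    have hQ := hq a ha (by omega) i1
    set m : ℝ := (n : ℝ) - a with hm
    have hm1 : 1 < m := by rw [hm]; linarith
    set D0 := D a with hD0'
    set D1 := D (a + 1) with hD1'
    set D2 := D (a + 2) with hD2'
    -- cancel `m D1`
    have hQ2 : m * D1 ^ 2 ≤ D0 * (D1 + (m - 1) * (1 / ((a : ℝ) + 1) ^ 2 * D1 +
        (1 - 1 / ((a : ℝ) + 1) ^ 2) * D2)) := by
      have h1 : m * (m * D1 ^ 2) ≤ m * (D0 * (D1 + (m - 1) * (1 / ((a : ℝ) + 1) ^ 2 * D1 +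
        (1 - 1 / ((a : ℝ) + 1) ^ 2) * D2))) := by
        calc m * (m * D1 ^ 2) = (m * D1) ^ 2 := by ring
          _ ≤ _ := hQ
          _ = _ := by ring
      exact le_of_mul_le_mul_left h1 (by linarith)
    -- the inequality `(m - 1) a (a + 2) D0 (D1 - D2) ≤ m (a + 1)² D1 (D0 - D1)`
    have hQ3 : (m - 1) * (a * (a + 2)) * D0 * (D1 - D2) ≤ m * (a + 1) ^ 2 * (D1 * (D0 - D1)) := by
      have hpos : (0 : ℝ) < ((a : ℝ) + 1) ^ 2 := by positivity
      have h1 := mul_le_mul_of_nonneg_right hQ2 hpos.le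
      have h2 : D0 * (D1 + (m - 1) * (1 / ((a : ℝ) + 1) ^ 2 * D1 +
        (1 - 1 / ((a : ℝ) + 1) ^ 2) * D2)) * ((a : ℝ) + 1) ^ 2 =
          D0 * (D1 * ((a : ℝ) + 1) ^ 2 + (m - 1) * (D1 + (((a : ℝ) + 1) ^ 2 - 1) * D2)) := by
        field_simp
      rw [h2] at h1
      nlinarith
    -- combine with the induction hypothesis
    have hQ4 : (m - 1) * (a + 2) * (D1 - D2) < (r + 1) * ((a + 1) * D1) := by
      have h1 : (m - 1) * (a + 2) * (D1 - D2) * (a * D0) < (r + 1) * ((a + 1) * D1) * (a * D0) := by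
        calc (m - 1) * (a + 2) * (D1 - D2) * (a * D0)
            = (m - 1) * (a * (a + 2)) * D0 * (D1 - D2) := by ring
          _ ≤ m * (a + 1) ^ 2 * (D1 * (D0 - D1)) := hQ3
          _ = ((a + 1) * D1) * (m * (a + 1) * (D0 - D1)) := by ring
          _ < ((a + 1) * D1) * ((r + 1) * (a * D0)) :=
              mul_lt_mul_of_pos_left i3 (by positivity)
          _ = (r + 1) * ((a + 1) * D1) * (a * D0) := by ring
      exact lt_of_mul_lt_mul_right h1 (by positivity)
    refine ⟨i2, ?_, ?_⟩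
    · by_contra hcon
      have h3 : D2 ≤ 0 := not_lt.1 hcon
      have h4 : ((r : ℝ) + 1) ≤ m - 1 := by rw [hm]; linarith
      have h5 : (r + 1) * ((a + 1) * D1) ≤ (m - 1) * ((a + 2) * (D1 - D2)) := by
        apply mul_le_mul h4 _ (by positivity) (by linarith)
        apply mul_le_mul (by linarith) (by linarith) i2.le (by linarith)
      linarith
    · push_cast
      have e1 : (n : ℝ) - (a + 1) = m - 1 := by rw [hm]; ring
      have e2 : (a : ℝ) + 1 + 1 = a + 2 := by ring
      rw [e1, e2]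
      exact hQ4

end

end LG291
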